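import Pool.Agent.T2H44.RC.Core

/-!
# Bases adapted to a filtration, and the zero estimate for solutions of a triangular system
-/

namespace Pool.Agent.T2H44.RC

open Filter Topology Metric Submodule

/-- a basis adapted to a decreasing filtration -/
theorem adapted {V : Type} [AddCommGroup V] [Module ℝ V] [FiniteDimensional ℝ V] (M : ℕ) :
    ∀ (U : ℕ → Submodule ℝ V), Antitone U → U M = ⊥ →
    ∃ (ι : Type) (_ : Fintype ι) (e : ι → V) (k : ι → ℕ), LinearIndependent ℝ e ∧
      span ℝ (Set.range e) = U 0 ∧ (∀ j, e j ∈ U (k j)) ∧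
      ∀ (a : ℕ) (x : ι → ℝ), (∀ j, x j ≠ 0 → k j = a) → ∑ j, x j • e j ∈ U (a + 1) → x = 0 := by
  induction M with
  | zero =>
    intro U _ h0
    refine ⟨Empty, inferInstance, Empty.elim, Empty.elim, linearIndependent_empty_type, ?_,
      fun j => j.elim, fun a x _ _ => funext fun j => j.elim⟩
    rw [h0]
    simp
  | succ M ih =>
    intro U hU hM
    obtain ⟨ι, _, e, k, hli, hsp, hmem, hind⟩ := ih (fun a => U (a + 1))
      (fun a b hab => hU (by omega)) hM
    obtain ⟨q, hq⟩ := Submodule.exists_isCompl (U 1)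
    set C : Submodule ℝ V := q ⊓ U 0 with hC
    have h01 : U 1 ≤ U 0 := hU (by omega)
    have hdisj : Disjoint C (U 1) := hq.symm.disjoint.mono_left inf_le_left
    have hsup : C ⊔ U 1 = U 0 := by
      rw [hC, sup_comm, sup_inf_assoc_of_le _ h01 |>.symm, hq.sup_eq_top, top_inf_eq]
    set b := Module.finBasis ℝ C with hb
    have hbC : span ℝ (Set.range fun i => (b i : V)) = C := by
      have h1 : (Set.range fun i => (b i : V)) = C.subtype '' Set.range b := by
        rw [← Set.range_comp]; rfl
      rw [h1, Submodule.span_image, b.span_eq, Submodule.map_top, Submodule.range_subtype]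
    have hbli : LinearIndependent ℝ fun i => (b i : V) :=
      b.linearIndependent.map' C.subtype (Submodule.ker_subtype C)
    refine ⟨Fin (Module.finrank ℝ C) ⊕ ι, inferInstance, Sum.elim (fun i => (b i : V)) e,
      Sum.elim (fun _ => 0) (fun j => k j + 1), ?_, ?_, ?_, ?_⟩
    · refine hbli.sum_type hli ?_
      rw [hbC, hsp]
      exact hdisj
    · rw [Set.Sum.elim_range, Submodule.span_union, hbC, hsp]
      exact hsup
    · rintro (i | j)
      · exact (b i).2.2
      · exact hmem j
    · intro a x hx hs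
      rw [Fintype.sum_sum_type] at hs
      simp only [Sum.elim_inl, Sum.elim_inr] at hs
      rcases Nat.eq_zero_or_pos a with ha | ha
      · subst ha
        have hr : ∀ j, x (Sum.inr j) = 0 := by
          intro j
          by_contra hne
          have := hx _ hne
          simp at this
        have hs' : ∑ i, x (Sum.inl i) • (b i : V) ∈ U 1 := by
          simpa [hr] using hs
        have h2 : ∑ i, x (Sum.inl i) • (b i : V) = 0 := by
          have h3 : ∑ i, x (Sum.inl i) • (b i : V) ∈ C :=
            Submodule.sum_mem _ fun i _ => Submodule.smul_mem _ _ (b i).2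
          exact Submodule.disjoint_def.1 hdisj _ h3 hs'
        have h4 := Fintype.linearIndependent_iff.1 hbli _ h2
        funext j
        rcases j with i | j
        · exact h4 i
        · exact hr j
      · obtain ⟨a', rfl⟩ : ∃ a', a = a' + 1 := ⟨a - 1, by omega⟩
        have hl : ∀ i, x (Sum.inl i) = 0 := by
          intro i
          by_contra hne
          have := hx _ hne
          simp at this
        have h2 := hind a' (fun j => x (Sum.inr j)) (fun j hj => by
          have := hx _ hj
          simpa using this) (by simpa [hl] using hs)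
        funext j
        rcases j with i | j
        · exact hl i
        · exact congrFun h2 j

variable {L : Type} [Fintype L]

theorem le_order_coord {f : ℂ → L → ℂ} {u₀ : ℂ} (hf : AnalyticAt ℂ f u₀) {a : ℕ}
    (h : (a : ℕ∞) ≤ analyticOrderAt f u₀) (l : L) :
    (a : ℕ∞) ≤ analyticOrderAt (fun v => f v l) u₀ := by
  have hl : AnalyticAt ℂ (fun v => f v l) u₀ := (analyticAt_pi_iff.1 hf) l
  obtain ⟨b, hb, hfb⟩ := (natCast_le_analyticOrderAt hf).1 h
  refine (natCast_le_analyticOrderAt hl).2 ⟨fun v => b v l, (analyticAt_pi_iff.1 hb) l, ?_⟩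
  filter_upwards [hfb] with v hv
  rw [hv]
  rfl

theorem le_order_of_coord {f : ℂ → L → ℂ} {u₀ : ℂ} (hf : AnalyticAt ℂ f u₀) {a : ℕ}
    (h : ∀ l, (a : ℕ∞) ≤ analyticOrderAt (fun v => f v l) u₀) :
    (a : ℕ∞) ≤ analyticOrderAt f u₀ := by
  have hl : ∀ l, ∃ b : ℂ → ℂ, AnalyticAt ℂ b u₀ ∧ ∀ᶠ z in 𝓝 u₀, f z l = (z - u₀) ^ a • b z :=
    fun l => (natCast_le_analyticOrderAt ((analyticAt_pi_iff.1 hf) l)).1 (h l)
  choose b hb hfb using hl
  refine (natCast_le_analyticOrderAt hf).2 ⟨fun v l => b l v, analyticAt_pi_iff.2 hb, ?_⟩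
  filter_upwards [eventually_all.2 hfb] with v hv
  funext l
  exact hv l

theorem le_order_sum {κ : Type} (s : Finset κ) {f : κ → ℂ → ℂ} {u₀ : ℂ}
    (hf : ∀ i ∈ s, AnalyticAt ℂ (f i) u₀) {a : ℕ}
    (h : ∀ i ∈ s, (a : ℕ∞) ≤ analyticOrderAt (f i) u₀) :
    (a : ℕ∞) ≤ analyticOrderAt (fun v => ∑ i ∈ s, f i v) u₀ := by
  classical
  induction s using Finset.induction_on with
  | empty =>
    have : analyticOrderAt (fun v : ℂ => ∑ i ∈ (∅ : Finset κ), f i v) u₀ = ⊤ := by
      rw [analyticOrderAt_eq_top]
      simp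
    rw [this]
    exact le_top
  | insert i s hi ih =>
    have h1 := ih (fun j hj => hf j (Finset.mem_insert_of_mem hj))
      (fun j hj => h j (Finset.mem_insert_of_mem hj))
    have h2 := h i (Finset.mem_insert_self _ _)
    have h3 : (fun v => ∑ j ∈ insert i s, f j v) = (f i) + fun v => ∑ j ∈ s, f j v := by
      funext v
      rw [Finset.sum_insert hi]
      rfl
    rw [h3]
    exact le_trans (le_min h2 h1) le_analyticOrderAt_add

theorem le_order_mul {f g : ℂ → ℂ} {u₀ : ℂ} (hf : AnalyticAt ℂ f u₀) (hg : AnalyticAt ℂ g u₀)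
    {a : ℕ∞} (h : a ≤ analyticOrderAt g u₀) : a ≤ analyticOrderAt (fun v => f v * g v) u₀ := by
  have := analyticOrderAt_mul hf hg
  change analyticOrderAt (fun v => f v * g v) u₀ = _ at this
  rw [this]
  exact le_trans h le_add_self

/-- the deep coordinates vanish to a higher order -/
theorem deep_order {deep : L → Prop} {f : ℂ → L → ℂ} {u₀ : ℂ} (hf : AnalyticAt ℂ f u₀)
    {M : ℂ → L → L → ℂ} (hM : ∀ l l', AnalyticAt ℂ (fun u => M u l l') u₀)
    (hode : ∀ᶠ u in 𝓝 u₀, ∀ l, deep l → deriv (fun v => f v l) u = ∑ l', M u l l' * f u l')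
    {a : ℕ} (h : (a : ℕ∞) ≤ analyticOrderAt f u₀) {l : L} (hl : deep l) (h0 : f u₀ l = 0) :
    ((a + 1 : ℕ) : ℕ∞) ≤ analyticOrderAt (fun v => f v l) u₀ := by
  have hfl : ∀ l, AnalyticAt ℂ (fun v => f v l) u₀ := fun l => (analyticAt_pi_iff.1 hf) l
  have h1 : (a : ℕ∞) ≤ analyticOrderAt (deriv fun v => f v l) u₀ := by
    have h2 : (deriv fun v => f v l) =ᶠ[𝓝 u₀] fun u => ∑ l', M u l l' * f u l' := by
      filter_upwards [hode] with u hu using hu l hl
    rw [analyticOrderAt_congr h2]
    exact le_order_sum _ (fun l' _ => (hM l l').mul (hfl l'))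
      (fun l' _ => le_order_mul (hM l l') (hfl l') (le_order_coord hf h l'))
  have := (analyticOrderAt_deriv_ge_iff (hfl l) h0).1 h1
  exact_mod_cast this

/-- **The zero estimate**: let `g w`, `w` in a finite dimensional real vector space, be vector valued
functions such that the derivatives of the deep coordinates are combinations of the coordinates. If the
deep coordinates at `u₀` are injective on a subspace of codimension at most `r`, then for `u` near `u₀`
no function `g w`, `w ≠ 0`, has a zero of order at least `r` at `u`. -/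
theorem zero_estimate {V : Type} [AddCommGroup V] [Module ℝ V] [FiniteDimensional ℝ V]
    (deep : L → Prop) (r : ℕ) (hr : 1 ≤ r) (g : V →ₗ[ℝ] (ℂ → L → ℂ)) {u₀ : ℂ}
    (han : ∀ w, AnalyticAt ℂ (g w) u₀) (M : ℂ → L → L → ℂ)
    (hM : ∀ l l', AnalyticAt ℂ (fun u => M u l l') u₀)
    (hode : ∀ w, ∀ᶠ u in 𝓝 u₀, ∀ l, deep l →
      deriv (fun v => g w v l) u = ∑ l', M u l l' * g w u l')
    (H : Submodule ℝ V) (hH : Module.finrank ℝ V ≤ Module.finrank ℝ H + r)
    (hH0 : ∀ h ∈ H, (∀ l, deep l → g h u₀ l = 0) → h = 0)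
    (hne : ∀ w, (∀ᶠ u in 𝓝 u₀, g w u = 0) → w = 0) :
    ∀ᶠ u in 𝓝[≠] u₀, ∀ w, (r : ℕ∞) ≤ analyticOrderAt (g w) u → w = 0 := by
  classical
  -- the subspace of the elements with deep coordinates zero
  let W₀ : Submodule ℝ V :=
    { carrier := {w | ∀ l, deep l → g w u₀ l = 0}
      zero_mem' := fun l _ => by simp
      add_mem' := fun {v w} hv hw l hl => by
        rw [map_add, Pi.add_apply, Pi.add_apply, hv l hl, hw l hl, add_zero]
      smul_mem' := fun t v hv l hl => by
        rw [map_smul, Pi.smul_apply, Pi.smul_apply, hv l hl, smul_zero] }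
  have hW₀H : Disjoint W₀ H := by
    rw [Submodule.disjoint_def]
    intro w hw hwH
    exact hH0 w hwH hw
  have hW₀r : Module.finrank ℝ W₀ ≤ r := by
    have := Submodule.finrank_add_finrank_le_of_disjoint hW₀H
    omega
  -- the filtration
  let U : ℕ → Submodule ℝ V := fun a =>
    { carrier := {w | w ∈ W₀ ∧ (a : ℕ∞) ≤ analyticOrderAt (g w) u₀}
      zero_mem' := ⟨W₀.zero_mem, by
        have : analyticOrderAt (g 0) u₀ = ⊤ := by
          rw [analyticOrderAt_eq_top, map_zero]
          simp
        rw [this]; exact le_top⟩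
      add_mem' := fun {v w} hv hw => ⟨W₀.add_mem hv.1 hw.1, by
        rw [map_add]
        exact le_trans (le_min hv.2 hw.2) le_analyticOrderAt_add⟩
      smul_mem' := fun t v hv => ⟨W₀.smul_mem t hv.1, by
        rw [map_smul]
        have h1 : (t • g v) = (fun _ : ℂ => (t : ℂ)) • g v := by
          funext u l
          simp
        rw [h1, analyticOrderAt_smul analyticAt_const (han v)]
        exact le_trans hv.2 le_add_self⟩ }
  have hUanti : Antitone U := fun a b hab w hw => ⟨hw.1, le_trans (by exact_mod_cast hab) hw.2⟩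
  have hU0 : U 0 = W₀ := by
    ext w
    exact ⟨fun h => h.1, fun h => ⟨h, by simp⟩⟩
  obtain ⟨m, hm⟩ : ∃ m, U m = ⊥ := by
    obtain ⟨m, hm⟩ := IsArtinian.monotone_stabilizes (R := ℝ) (M := V)
      ⟨fun a => OrderDual.toDual (U a), fun a b hab => hUanti hab⟩
    refine ⟨m, ?_⟩
    rw [eq_bot_iff]
    intro w hw
    rw [Submodule.mem_bot]
    apply hne
    rw [← analyticOrderAt_eq_top, ENat.eq_top_iff_forall_ge]
    intro a
    rcases le_total a m with h | h
    · exact (hUanti h hw).2
    · have : U m = U a := hm a h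
      rw [this] at hw
      exact hw.2
  obtain ⟨ι, _, e, k, hli, hsp, hmem, hind⟩ := adapted m U hUanti hm
  rw [hU0] at hsp
  obtain ⟨q, hq⟩ := Submodule.exists_isCompl W₀
  set b := Module.finBasis ℝ q with hb
  have hbq : span ℝ (Set.range fun i => (b i : V)) = q := by
    have h1 : (Set.range fun i => (b i : V)) = q.subtype '' Set.range b := by
      rw [← Set.range_comp]; rfl
    rw [h1, Submodule.span_image, b.span_eq, Submodule.map_top, Submodule.range_subtype]
  have hbli : LinearIndependent ℝ fun i => (b i : V) :=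
    b.linearIndependent.map' q.subtype (Submodule.ker_subtype q)
  -- the coefficient functions
  have hβ : ∀ j, ∃ β : ℂ → L → ℂ, AnalyticAt ℂ β u₀ ∧
      ∀ᶠ z in 𝓝 u₀, g (e j) z = (z - u₀) ^ k j • β z :=
    fun j => (natCast_le_analyticOrderAt (han (e j))).1 (hmem j).2
  choose β hβa hβe using hβ
  set J := Fin (Module.finrank ℝ q) ⊕ ι with hJ
  let E : J → V := Sum.elim (fun i => (b i : V)) e
  let kk : J → ℕ := Sum.elim (fun _ => 0) k
  let BB : J → ℂ → L → ℂ := Sum.elim (fun i => g (b i : V)) β
  have hBa : ∀ j, AnalyticAt ℂ (BB j) u₀ := by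
    rintro (i | j)
    · exact han _
    · exact hβa j
  have hBe : ∀ j, ∀ᶠ z in 𝓝 u₀, g (E j) z = (z - u₀) ^ kk j • BB j z := by
    rintro (i | j)
    · exact Eventually.of_forall fun z => by simp [E, kk, BB]
    · exact hβe j
  have hev : ∀ᶠ z in 𝓝 u₀, ∀ j, AnalyticAt ℂ (BB j) z ∧ g (E j) z = (z - u₀) ^ kk j • BB j z := by
    rw [eventually_all]
    intro j
    exact (hBa j).eventually_analyticAt.and (hBe j)
  obtain ⟨ρ, hρ, hρb⟩ := Metric.eventually_nhds_iff_ball.1 hev
  -- all of the space is spanned
  have hspan : ∀ w : V, ∃ x : J → ℝ, w = ∑ j, x j • E j := by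
    intro w
    have h1 : w ∈ span ℝ (Set.range E) := by
      have h2 : span ℝ (Set.range E) = ⊤ := by
        show span ℝ (Set.range (Sum.elim (fun i => (b i : V)) e)) = ⊤
        rw [Set.Sum.elim_range, Submodule.span_union, hbq, hsp]
        exact hq.symm.sup_eq_top
      rw [h2]; exact Submodule.mem_top
    obtain ⟨x, hx⟩ := (Submodule.mem_span_range_iff_exists_fun ℝ).1 h1
    exact ⟨x, hx.symm⟩
  have hgsum : ∀ (x : J → ℝ) (z : ℂ), g (∑ j, x j • E j) z = ∑ j, (x j : ℂ) • g (E j) z := by
    intro x z
    rw [map_sum, Finset.sum_apply]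
    refine Finset.sum_congr rfl fun j _ => ?_
    rw [map_smul]
    ext l
    simp
  -- values at the center
  have hB0 : ∀ j : ι, ∀ l, deep l → β j u₀ l = 0 := by
    intro j l hl
    have h1 := deep_order (han (e j)) hM (hode (e j)) (hmem j).2 hl ((hmem j).1 l hl)
    have h2 : (fun v => g (e j) v l) =ᶠ[𝓝 u₀] fun v => (v - u₀) ^ k j • β j v l := by
      filter_upwards [hβe j] with v hv
      rw [hv]; rfl
    have hβl : AnalyticAt ℂ (fun v => β j v l) u₀ := (analyticAt_pi_iff.1 (hβa j)) l
    have hpow : AnalyticAt ℂ (fun v : ℂ => (v - u₀) ^ k j) u₀ :=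
      (analyticAt_id.sub analyticAt_const).pow _
    rw [analyticOrderAt_congr h2] at h1
    have h3 := analyticOrderAt_smul hpow hβl
    change analyticOrderAt (fun v => (v - u₀) ^ k j • β j v l) u₀ = _ at h3
    have h4 : analyticOrderAt (fun v : ℂ => (v - u₀) ^ k j) u₀ = k j := by
      have := analyticOrderAt_centeredMonomial (𝕜 := ℂ) (z₀ := u₀) (n := k j)
      exact this
    rw [h3, h4] at h1
    apply apply_eq_zero_of_analyticOrderAt_ne_zero (f := fun v => β j v l)
    intro h5
    rw [h5, add_zero] at h1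
    have : k j + 1 ≤ k j := by exact_mod_cast h1
    omega
  have hcore := core deep r hr kk (fun j => j.isLeft = true) hρ (fun j v => BB j (v + u₀))
    (fun j v hv => by
      have h1 : v + u₀ ∈ ball u₀ ρ := by
        rw [mem_ball, dist_eq_norm, add_sub_cancel_right]
        rwa [mem_ball, dist_zero_right] at hv
      have h2 := (hρb _ h1 j).1
      have h3 : AnalyticAt ℂ (fun v : ℂ => v + u₀) v := by fun_prop
      exact AnalyticAt.comp' (f := fun v : ℂ => v + u₀) h2 h3)
    (fun j hj => by
      rcases j with i | j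
      · rfl
      · simp at hj)
    (fun j hj l hl => by
      rcases j with i | j
      · simp at hj
      · show β j (0 + u₀) l = 0
        rw [zero_add]
        exact hB0 j l hl)
    (fun x hx hs => by
      have h1 : ∑ i, x (Sum.inl i) • (b i : V) ∈ W₀ := by
        intro l hl
        have h2 := hs l hl
        rw [Fintype.sum_sum_type] at h2
        have h3 : ∀ j : ι, x (Sum.inr j) = 0 := fun j => hx _ (by simp)
        simp only [h3, Complex.ofReal_zero, zero_mul, Finset.sum_const_zero, add_zero] at h2
        rw [map_sum, Finset.sum_apply, Finset.sum_apply]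
        rw [zero_add] at h2
        refine Eq.trans (Finset.sum_congr rfl fun i _ => ?_) h2
        rw [map_smul]
        simp [BB]
      have h2 : ∑ i, x (Sum.inl i) • (b i : V) ∈ q :=
        Submodule.sum_mem _ fun i _ => Submodule.smul_mem _ _ (b i).2
      have h3 := Submodule.disjoint_def.1 hq.disjoint _ h1 h2
      have h4 := Fintype.linearIndependent_iff.1 hbli _ h3
      funext j
      rcases j with i | j
      · exact h4 i
      · exact hx _ (by simp))
    (fun a x hx hs => by
      have h0 : ∀ i, x (Sum.inl i) = 0 := by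
        intro i
        by_contra hne'
        have := (hx _ hne').1
        simp at this
      have h1 := hind a (fun j => x (Sum.inr j)) (fun j hj => (hx _ hj).2) (by
        refine ⟨Submodule.sum_mem _ fun j _ => W₀.smul_mem _ (hmem j).1, ?_⟩
        have hfa : AnalyticAt ℂ (fun z => ∑ j, (x (Sum.inr j) : ℂ) • β j z) u₀ := by
          refine Finset.analyticAt_fun_sum _ fun j _ => ?_
          have := hβa j
          fun_prop
        have h2 : g (∑ j, x (Sum.inr j) • e j) =ᶠ[𝓝 u₀]
            fun z => (z - u₀) ^ a • ∑ j, (x (Sum.inr j) : ℂ) • β j z := by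
          filter_upwards [eventually_all.2 hβe] with z hz
          rw [map_sum, Finset.sum_apply, Finset.smul_sum]
          refine Finset.sum_congr rfl fun j _ => ?_
          rw [map_smul]
          by_cases hj : x (Sum.inr j) = 0
          · simp [hj]
          · have h3 : k j = a := (hx _ hj).2
            rw [Pi.smul_apply, hz j, h3]
            ext l
            simp only [Pi.smul_apply, smul_eq_mul, Complex.real_smul]
            ring
        rw [analyticOrderAt_congr h2]
        have hpow : AnalyticAt ℂ (fun v : ℂ => (v - u₀) ^ a) u₀ :=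
          (analyticAt_id.sub analyticAt_const).pow _
        have h3 := analyticOrderAt_smul hpow hfa
        change analyticOrderAt (fun z => (z - u₀) ^ a • ∑ j, (x (Sum.inr j) : ℂ) • β j z) u₀ = _
          at h3
        have h4 : analyticOrderAt (fun v : ℂ => (v - u₀) ^ a) u₀ = a :=
          analyticOrderAt_centeredMonomial (𝕜 := ℂ) (z₀ := u₀) (n := a)
        rw [h3, h4]
        have h5 : analyticOrderAt (fun z => ∑ j, (x (Sum.inr j) : ℂ) • β j z) u₀ ≠ 0 := by
          rw [analyticOrderAt_ne_zero]
          refine ⟨hfa, ?_⟩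
          ext l
          have h6 := hs l
          rw [Fintype.sum_sum_type] at h6
          simp only [h0, Complex.ofReal_zero, zero_mul, Finset.sum_const_zero, zero_add] at h6
          rw [Finset.sum_apply]
          exact h6
        push_cast
        exact add_le_add_right (ENat.one_le_iff_ne_zero.2 h5) _)
      funext j
      rcases j with i | j
      · exact h0 i
      · exact congrFun h1 j)
    (Finset.image k Finset.univ) (fun j hj => by
      rcases j with i | j
      · simp at hj
      · exact Finset.mem_image_of_mem _ (Finset.mem_univ j))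
    (by
      refine le_trans Finset.card_image_le ?_
      rw [Finset.card_univ]
      have h1 := finrank_span_eq_card hli
      rw [hsp] at h1
      omega)
  -- back to `u₀`
  have hcore' : ∀ᶠ u in 𝓝[≠] u₀, ∀ x : J → ℝ, (r : ℕ∞) ≤ analyticOrderAt
      (fun v => ∑ j, ((x j : ℂ) * v ^ kk j) • BB j (v + u₀)) (u - u₀) → x = 0 := by
    have ht : Tendsto (fun u : ℂ => u - u₀) (𝓝[≠] u₀) (𝓝[≠] 0) := by
      refine tendsto_nhdsWithin_of_tendsto_nhds_of_eventually_within _ ?_ ?_
      · have : Tendsto (fun u : ℂ => u - u₀) (𝓝 u₀) (𝓝 (u₀ - u₀)) :=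
          (continuous_id.sub continuous_const).tendsto u₀
        rw [sub_self] at this
        exact this.mono_left nhdsWithin_le_nhds
      · filter_upwards [self_mem_nhdsWithin] with u hu
        exact sub_ne_zero.2 hu
    exact ht.eventually hcore
  have hball : ∀ᶠ u in 𝓝[≠] u₀, u ∈ ball u₀ ρ :=
    nhdsWithin_le_nhds (isOpen_ball.mem_nhds (mem_ball_self hρ))
  filter_upwards [hcore', hball] with u hu hub w hw
  obtain ⟨x, rfl⟩ := hspan w
  have h1 : x = 0 := by
    apply hu x
    have h2 : analyticOrderAt (fun v => ∑ j, ((x j : ℂ) * v ^ kk j) • BB j (v + u₀)) (u - u₀)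
        = analyticOrderAt (g (∑ j, x j • E j)) u := by
      have h3 : (fun v => ∑ j, ((x j : ℂ) * v ^ kk j) • BB j (v + u₀))
          =ᶠ[𝓝 (u - u₀)] (g (∑ j, x j • E j)) ∘ fun v => v + u₀ := by
        have h4 : ∀ᶠ v in 𝓝 (u - u₀), v + u₀ ∈ ball u₀ ρ := by
          have h5 : Tendsto (fun v : ℂ => v + u₀) (𝓝 (u - u₀)) (𝓝 (u - u₀ + u₀)) :=
            (continuous_id.add continuous_const).tendsto _
          rw [sub_add_cancel] at h5
          exact h5.eventually (isOpen_ball.mem_nhds hub)
        filter_upwards [h4] with v hv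
        rw [Function.comp_apply, hgsum]
        refine Finset.sum_congr rfl fun j _ => ?_
        rw [(hρb _ hv j).2, add_sub_cancel_right, smul_smul]
      rw [analyticOrderAt_congr h3, analyticOrderAt_comp_of_deriv_ne_zero]
      · simp
      · exact analyticAt_id.add analyticAt_const
      · simp
    rw [h2]
    exact hw
  rw [h1]
  simp

end Pool.Agent.T2H44.RC
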