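import Pool.Agent.T2H44.RC.Cusp

/-!
# Package C1: zeros of high order near a puncture give solutions of the model equations
-/

namespace Pool.Agent.T2H44.RC

open Metric Filter Asymptotics Finset Pool.Agent.Y92.Gap Pool.Agent.Y92.RS
open scoped Topology Nat

namespace Appr

variable {ι L : Type} [Fintype ι] [Fintype L]

theorem dg_apply (m : ι → ℕ) (t : ℂ) (v : ι → ℂ) (j : ι) : dg m t v j = t ^ m j * v j := by
  simp [dg]

theorem wt_apply (m : ι → ℕ) (v : ι → ℂ) (j : ι) : wt m v j = (m j : ℂ) * v j := by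
  simp [wt]

variable (S : CuspModel ι L)

theorem pow_dg (q : ℂ) (k : ℕ) (v : ι → ℂ) :
    (S.Nq q ^ k) (dg S.m q v) = dg S.m q ((S.N ^ k) v) := by
  induction k generalizing v with
  | zero => simp
  | succ k ih =>
    rw [pow_succ, pow_succ]
    change (S.Nq q ^ k) (S.Nq q (dg S.m q v)) = dg S.m q ((S.N ^ k) (S.N v))
    rw [S.Nq_dg, ih]

/-- the intertwining relation -/
theorem ex_dg (q z : ℂ) (v : ι → ℂ) :
    dg S.m q (ex S.N z v) = ex (S.Nq q) z (dg S.m q v) := by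
  rw [ex_eq_sum S.N_nilp, ex_eq_sum (S.Nq_nilp q)]
  simp only [_root_.sum_apply, _root_.smul_apply, map_sum, map_smul, pow_dg]

/-- the operator of the equation of the derivatives -/
noncomputable def A (q : ℂ) : (ι → ℂ) →L[ℂ] (ι → ℂ) :=
  (2 * Real.pi * Complex.I) • wt S.m - S.Nq q

/-- the coefficients of the derivatives -/
noncomputable def bb : ℕ → ℂ → (ι → ℂ) →L[ℂ] (L → ℂ)
  | 0 => S.b
  | (i + 1) => fun q => (2 * Real.pi * Complex.I * q) • deriv (bb i) q + (bb i q).comp (A S q)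

theorem A_diff : Differentiable ℂ (A S) := by
  unfold A
  exact (differentiable_const _).sub S.Nq_diff

theorem bb_diff (i : ℕ) : DifferentiableOn ℂ (bb S i) (ball 0 S.ρ) := by
  induction i with
  | zero => exact S.b_diff
  | succ i ih =>
    change DifferentiableOn ℂ (fun q => (2 * Real.pi * Complex.I * q) • deriv (bb S i) q +
      (bb S i q).comp (A S q)) (ball 0 S.ρ)
    refine DifferentiableOn.add ?_ ?_
    · exact (DifferentiableOn.const_mul differentiableOn_id _).smul (ih.deriv isOpen_ball)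
    · exact ih.clm_comp (A_diff S).differentiableOn

theorem bb_zero (i : ℕ) : bb S i 0 = S.c i := by
  induction i with
  | zero =>
    ext v
    simp [bb, CuspModel.c]
  | succ i ih =>
    have h1 : bb S (i + 1) 0 =
        (2 * Real.pi * Complex.I * 0 : ℂ) • deriv (bb S i) 0 + (bb S i 0).comp (A S 0) := rfl
    rw [h1, ih, mul_zero]
    apply ContinuousLinearMap.ext
    intro v
    rw [_root_.add_apply, _root_.smul_apply, zero_smul, zero_add]
    unfold CuspModel.c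
    rw [pow_succ]
    rfl

theorem hasDerivAt_dg (v : ι → ℂ) (z : ℂ) :
    HasDerivAt (fun z => dg S.m (qexp z) (ex S.N (-z) v))
      (A S (qexp z) (dg S.m (qexp z) (ex S.N (-z) v))) z := by
  rw [hasDerivAt_pi]
  intro j
  simp only [dg_apply]
  have h1 : HasDerivAt (fun z => qexp z ^ S.m j)
      ((S.m j : ℂ) * qexp z ^ (S.m j - 1) * (2 * Real.pi * Complex.I * qexp z)) z :=
    (hasDerivAt_qq z).pow (S.m j)
  have h2 : HasDerivAt (fun z => ex S.N (-z) v) (-(S.N (ex S.N (-z) v))) z := by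
    have h : HasDerivAt (fun z => ex S.N (-z) v) ((-1 : ℂ) • (S.N (ex S.N (-z) v))) z :=
      (hasDerivAt_ex_apply S.N (-z) v).scomp z (hasDerivAt_neg z)
    rw [neg_one_smul] at h
    exact h
  have h3 := (hasDerivAt_pi.mp h2) j
  have h4 := h1.mul h3
  refine h4.congr_deriv ?_
  unfold A
  rw [_root_.sub_apply, _root_.smul_apply, S.Nq_dg, Pi.sub_apply, Pi.smul_apply,
    dg_apply, wt_apply, dg_apply, smul_eq_mul, Pi.neg_apply]
  rcases Nat.eq_zero_or_pos (S.m j) with h | h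
  · rw [h]; simp
  · have : qexp z ^ S.m j = qexp z ^ (S.m j - 1) * qexp z := by
      rw [← pow_succ]; congr 1; omega
    rw [this]; ring

theorem hasDerivAt_bb (i : ℕ) (v : ι → ℂ) (z : ℂ) (hz : qexp z ∈ ball (0 : ℂ) S.ρ) :
    HasDerivAt (fun z => bb S i (qexp z) (dg S.m (qexp z) (ex S.N (-z) v)))
      (bb S (i + 1) (qexp z) (dg S.m (qexp z) (ex S.N (-z) v))) z := by
  have h1 : HasDerivAt (bb S i) (deriv (bb S i) (qexp z)) (qexp z) :=
    ((bb_diff S i).differentiableAt (isOpen_ball.mem_nhds hz)).hasDerivAt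
  have h2 : HasDerivAt (fun z => bb S i (qexp z))
      ((2 * Real.pi * Complex.I * qexp z) • deriv (bb S i) (qexp z)) z :=
    HasDerivAt.scomp z h1 (hasDerivAt_qq z)
  have h3 := h2.clm_apply (hasDerivAt_dg S v z)
  exact h3

theorem isOpen_dom : IsOpen {z : ℂ | qexp z ∈ ball (0 : ℂ) S.ρ} := by
  have : Continuous qexp := by
    unfold qexp
    fun_prop
  exact isOpen_ball.preimage this

theorem iteratedDeriv_G (i : ℕ) (v : ι → ℂ) : ∀ z : ℂ, qexp z ∈ ball (0 : ℂ) S.ρ →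
    iteratedDeriv i (S.G v) z = bb S i (qexp z) (dg S.m (qexp z) (ex S.N (-z) v)) := by
  induction i with
  | zero => intro z _; simp [CuspModel.G, bb]
  | succ i ih =>
    intro z hz
    rw [iteratedDeriv_succ]
    have h1 : iteratedDeriv i (S.G v) =ᶠ[𝓝 z]
        fun z => bb S i (qexp z) (dg S.m (qexp z) (ex S.N (-z) v)) := by
      filter_upwards [(isOpen_dom S).mem_nhds hz] with w hw
      exact ih w hw
    rw [h1.deriv_eq, (hasDerivAt_bb S i v z hz).deriv]

theorem order_zero (r : ℕ) (v : ι → ℂ) (z : ℂ) (hz : qexp z ∈ ball (0 : ℂ) S.ρ)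
    (h : (r : ℕ∞) ≤ analyticOrderAt (S.G v) z) (i : ℕ) (hi : i < r) :
    bb S i (qexp z) (dg S.m (qexp z) (ex S.N (-z) v)) = 0 := by
  have h1 : DifferentiableOn ℂ (S.G v) {z : ℂ | qexp z ∈ ball (0 : ℂ) S.ρ} := by
    intro w hw
    exact (hasDerivAt_bb S 0 v w hw).differentiableAt.differentiableWithinAt
  have h2 : AnalyticAt ℂ (S.G v) z := h1.analyticAt ((isOpen_dom S).mem_nhds hz)
  rw [natCast_le_analyticOrderAt_iff_iteratedDeriv_eq_zero h2] at h
  rw [← iteratedDeriv_G S i v z hz]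
  exact h i hi

/-- real vectors are preserved by the exponential of real multiples of `N` -/
theorem ex_real (t : ℝ) (x : ι → ℝ) : ∃ y : ι → ℝ, ex S.N t (cv x) = cv y := by
  have hN : RealOp (fun k : ι => (ContinuousLinearMap.proj k : (ι → ℂ) →L[ℂ] ℂ)) S.N := by
    intro v hv
    have h1 : v = cv (fun k => (v k).re) := by
      ext k
      have := hv k
      exact Complex.ext (by simp [cv]) (by simpa [cv] using this)
    obtain ⟨y, hy⟩ := S.N_real (fun k => (v k).re)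
    intro k
    rw [h1, hy]
    simp [cv]
  have h2 : IsRe (fun k : ι => (ContinuousLinearMap.proj k : (ι → ℂ) →L[ℂ] ℂ)) (cv x) := by
    intro k
    simp [cv]
  have h3 := ex_re hN S.N_nilp t h2
  refine ⟨fun k => (ex S.N t (cv x) k).re, ?_⟩
  ext k
  exact Complex.ext (by simp [cv]) (by simpa [cv] using h3 k)

omit [Fintype ι] in
theorem cv_eq_zero {x : ι → ℝ} (h : cv x = 0) : x = 0 := by
  ext k
  have := congrFun h k
  simpa [cv] using this

/-- the zero of high order in normalised form -/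
theorem normal_form (r : ℕ) (x : ι → ℝ) (hx : x ≠ 0) (z : ℂ) (hz : qexp z ∈ ball (0 : ℂ) S.ρ)
    (h : (r : ℕ∞) ≤ analyticOrderAt (S.G (cv x)) z) :
    ∃ θ : ℂ, ‖θ‖ = 1 ∧ qexp z = θ * (Real.exp (-(2 * Real.pi * z.im)) : ℝ) ∧
      ∃ η : ι → ℝ, ∑ j, η j ^ 2 = 1 ∧
      ∀ i < r, bb S i (qexp z) (ex (S.Nq (qexp z)) (-(z.im * Complex.I)) (dg S.m θ (cv η))) = 0 := by
  obtain ⟨x', hx'⟩ := ex_real S (-z.re) x
  have hx'0 : x' ≠ 0 := by
    intro h0
    apply hx
    apply cv_eq_zero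
    have h1 : ex S.N (-(z.re : ℂ)) (cv x) = 0 := by
      have := hx'
      rw [h0] at this
      push_cast at this
      rw [this]
      ext k; simp [cv]
    rw [← ex_apply_neg S.N (z.re : ℂ) (cv x), h1, map_zero]
  set θ : ℂ := qexp z.re with hθ
  set s : ℝ := Real.exp (-(2 * Real.pi * z.im)) with hs
  have hspos : 0 < s := Real.exp_pos _
  have hθ1 : ‖θ‖ = 1 := by
    have := norm_qq (z.re : ℂ)
    rw [hθ]
    change ‖qq z.re‖ = 1
    rw [this]; simp
  have hq : qexp z = θ * (s : ℝ) := by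
    rw [hθ, hs]
    unfold qexp
    rw [Complex.ofReal_exp, ← Complex.exp_add]
    congr 1
    conv_lhs => rw [← Complex.re_add_im z]
    push_cast
    have : Complex.I * Complex.I = -1 := Complex.I_mul_I
    linear_combination (2 * Real.pi * z.im : ℂ) * this
  set η' : ι → ℝ := fun j => s ^ S.m j * x' j with hη'
  have hη'0 : ∃ j, η' j ≠ 0 := by
    by_contra hcon
    push Not at hcon
    apply hx'0
    ext j
    have := hcon j
    rw [hη'] at this
    simp only [mul_eq_zero] at this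
    rcases this with h1 | h1
    · exact absurd h1 (pow_ne_zero _ hspos.ne')
    · exact h1
  have hn : 0 < ∑ j, η' j ^ 2 := by
    obtain ⟨j, hj⟩ := hη'0
    refine Finset.sum_pos' (fun i _ => sq_nonneg _) ⟨j, Finset.mem_univ j, by positivity⟩
  set c : ℝ := (Real.sqrt (∑ j, η' j ^ 2))⁻¹ with hc
  have hcpos : 0 < c := by rw [hc]; positivity
  refine ⟨θ, hθ1, hq, fun j => c * η' j, ?_, ?_⟩
  · simp_rw [mul_pow]
    rw [← Finset.mul_sum, hc, inv_pow, Real.sq_sqrt hn.le]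
    exact inv_mul_cancel₀ hn.ne'
  · intro i hi
    have h1 := order_zero S r (cv x) z hz h i hi
    have h2 : ex S.N (-z) (cv x) = ex S.N (-(z.im * Complex.I)) (cv x') := by
      have h3 : -z = -(z.im * Complex.I) + ((-z.re : ℝ) : ℂ) := by
        conv_lhs => rw [← Complex.re_add_im z]
        push_cast; ring
      rw [h3, ex_add, ← hx']
      rfl
    rw [h2, ex_dg] at h1
    have h3 : dg S.m θ (cv fun j => c * η' j) = (c : ℂ) • dg S.m (qexp z) (cv x') := by
      ext j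
      rw [Pi.smul_apply, dg_apply, dg_apply, smul_eq_mul, hq, hη']
      simp only [cv]
      push_cast
      ring
    rw [h3, map_smul, map_smul, h1, smul_zero]

theorem lip {E : Type*} [NormedAddCommGroup E] [NormedSpace ℂ E] {f : ℂ → E}
    (h : DifferentiableAt ℂ f 0) : ∃ C ε : ℝ, 0 ≤ C ∧ 0 < ε ∧ ∀ q : ℂ, ‖q‖ < ε →
      ‖f q - f 0‖ ≤ C * ‖q‖ := by
  obtain ⟨C, hC, h1⟩ := h.isBigO_sub.exists_pos
  rw [isBigOWith_iff, Metric.eventually_nhds_iff] at h1
  obtain ⟨ε, hε, h2⟩ := h1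
  refine ⟨C, ε, hC.le, hε, fun q hq => ?_⟩
  have := h2 (y := q) (by simpa using hq)
  simpa using this

theorem term_small {E : Type*} [NormedAddCommGroup E] [NormedSpace ℂ E] {f : ℂ → E}
    (h : DifferentiableAt ℂ f 0) (k : ℕ) (δ : ℝ) (hδ : 0 < δ) :
    ∀ᶠ y : ℝ in atTop, ∀ q : ℂ, ‖q‖ = Real.exp (-(2 * Real.pi * y)) →
      ‖((k ! : ℂ)⁻¹ * (-(y * Complex.I)) ^ k) • (f q - f 0)‖ ≤ δ * Real.exp (-y) := by
  obtain ⟨C, ε, hC, hε, h1⟩ := lip h
  have h2 : Tendsto (fun y : ℝ => (C + 1) * (y ^ k * Real.exp (-y))) atTop (𝓝 ((C + 1) * 0)) :=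
    (Real.tendsto_pow_mul_exp_neg_atTop_nhds_zero k).const_mul _
  rw [mul_zero] at h2
  have h3 : Tendsto (fun y : ℝ => Real.exp (-y)) atTop (𝓝 0) :=
    Real.tendsto_exp_neg_atTop_nhds_zero
  filter_upwards [h2.eventually (gt_mem_nhds hδ), h3.eventually (gt_mem_nhds hε),
    eventually_ge_atTop 0] with y hy1 hy2 hy3 q hq
  have hpi := Real.pi_gt_three
  have hq1 : ‖q‖ ≤ Real.exp (-y) * Real.exp (-y) := by
    rw [hq, ← Real.exp_add]
    apply Real.exp_le_exp.mpr
    nlinarith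
  have he1 : Real.exp (-y) ≤ 1 := by
    rw [Real.exp_le_one_iff]; linarith
  have he0 := Real.exp_pos (-y)
  have hq2 : ‖q‖ < ε := by nlinarith
  have h4 := h1 q hq2
  rw [norm_smul, norm_mul, norm_inv, norm_pow, norm_neg, norm_mul, Complex.norm_I, mul_one,
    Complex.norm_real, Real.norm_of_nonneg hy3, Complex.norm_natCast]
  have h5 : ((k ! : ℝ))⁻¹ ≤ 1 :=
    inv_le_one_of_one_le₀ (by exact_mod_cast Nat.factorial_pos k)
  have h6 : ‖f q - f 0‖ ≤ C * (Real.exp (-y) * Real.exp (-y)) :=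
    h4.trans (by gcongr)
  have h7 : 0 ≤ y ^ k := by positivity
  calc ((k ! : ℝ))⁻¹ * y ^ k * ‖f q - f 0‖
      ≤ 1 * y ^ k * (C * (Real.exp (-y) * Real.exp (-y))) := by gcongr
    _ ≤ 1 * y ^ k * ((C + 1) * (Real.exp (-y) * Real.exp (-y))) := by gcongr; linarith
    _ = ((C + 1) * (y ^ k * Real.exp (-y))) * Real.exp (-y) := by ring
    _ ≤ δ * Real.exp (-y) := by gcongr

theorem approx_op (r : ℕ) : ∀ᶠ y : ℝ in atTop, ∀ q : ℂ, ‖q‖ = Real.exp (-(2 * Real.pi * y)) →
    ∀ i < r, ‖(bb S i q).comp (ex (S.Nq q) (-(y * Complex.I))) -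
      (S.c i).comp (ex (S.Nq 0) (-(y * Complex.I)))‖ ≤ Real.exp (-y) := by
  have hd : ∀ i k, DifferentiableAt ℂ (fun q => (bb S i q).comp (S.Nq q ^ k)) 0 := by
    intro i k
    exact ((bb_diff S i).differentiableAt (ball_mem_nhds 0 S.ρ_pos)).clm_comp
      ((S.Nq_diff 0).pow k)
  have h1 : ∀ᶠ y : ℝ in atTop, ∀ i ∈ range r, ∀ k ∈ range S.K, ∀ q : ℂ,
      ‖q‖ = Real.exp (-(2 * Real.pi * y)) →
      ‖((k ! : ℂ)⁻¹ * (-(y * Complex.I)) ^ k) • ((bb S i q).comp (S.Nq q ^ k) -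
        (bb S i 0).comp (S.Nq 0 ^ k))‖ ≤ (1 / ((S.K : ℝ) + 1)) * Real.exp (-y) := by
    rw [eventually_all_finset]
    intro i _
    rw [eventually_all_finset]
    intro k _
    exact term_small (hd i k) k _ (by positivity)
  filter_upwards [h1] with y hy q hq i hi
  rw [ex_eq_sum (S.Nq_nilp q), ex_eq_sum (S.Nq_nilp 0), ← bb_zero]
  have h2 : (bb S i q).comp (∑ k ∈ range S.K,
        ((k ! : ℂ)⁻¹ * (-(y * Complex.I)) ^ k) • S.Nq q ^ k) -
      (bb S i 0).comp (∑ k ∈ range S.K, ((k ! : ℂ)⁻¹ * (-(y * Complex.I)) ^ k) • S.Nq 0 ^ k) =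
      ∑ k ∈ range S.K, ((k ! : ℂ)⁻¹ * (-(y * Complex.I)) ^ k) •
        ((bb S i q).comp (S.Nq q ^ k) - (bb S i 0).comp (S.Nq 0 ^ k)) := by
    apply ContinuousLinearMap.ext
    intro v
    simp only [_root_.sub_apply, ContinuousLinearMap.comp_apply, _root_.sum_apply,
      _root_.smul_apply, map_sum, map_smul, smul_sub, Finset.sum_sub_distrib]
  rw [h2]
  refine (norm_sum_le _ _).trans ?_
  calc ∑ k ∈ range S.K, ‖((k ! : ℂ)⁻¹ * (-(y * Complex.I)) ^ k) •
        ((bb S i q).comp (S.Nq q ^ k) - (bb S i 0).comp (S.Nq 0 ^ k))‖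
      ≤ ∑ k ∈ range S.K, (1 / ((S.K : ℝ) + 1)) * Real.exp (-y) :=
        Finset.sum_le_sum fun k hk => hy i (Finset.mem_range.mpr hi) k hk q hq
    _ ≤ Real.exp (-y) := by
        rw [Finset.sum_const, Finset.card_range, nsmul_eq_mul]
        have h3 : (S.K : ℝ) * (1 / ((S.K : ℝ) + 1)) ≤ 1 := by
          rw [mul_one_div, div_le_one (by positivity)]
          linarith
        have := Real.exp_pos (-y)
        calc (S.K : ℝ) * (1 / ((S.K : ℝ) + 1) * Real.exp (-y))
            = ((S.K : ℝ) * (1 / ((S.K : ℝ) + 1))) * Real.exp (-y) := by ring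
          _ ≤ 1 * Real.exp (-y) := by gcongr
          _ = Real.exp (-y) := one_mul _

/-- the polynomials of the equations -/
noncomputable def pp {r : ℕ} (e : Fin r × L) (j : ι) [DecidableEq ι] : Polynomial ℂ :=
  ∑ k ∈ range S.K, Polynomial.C ((k ! : ℂ)⁻¹ * (-Complex.I) ^ k *
    S.c e.1 ((S.Nq 0 ^ k) (Pi.single j 1)) e.2) * Polynomial.X ^ k

theorem pp_eval [DecidableEq ι] {r : ℕ} (e : Fin r × L) (j : ι) (y : ℝ) :
    (pp S e j).eval (y : ℂ) =
      S.c e.1 (ex (S.Nq 0) (-(y * Complex.I)) (Pi.single j 1)) e.2 := by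
  rw [ex_eq_sum (S.Nq_nilp 0)]
  unfold pp
  simp only [Polynomial.eval_finsetSum, Polynomial.eval_mul, Polynomial.eval_C,
    Polynomial.eval_pow, Polynomial.eval_X, _root_.sum_apply, _root_.smul_apply, map_sum, map_smul,
    Finset.sum_apply, Pi.smul_apply, smul_eq_mul]
  refine Finset.sum_congr rfl fun k _ => ?_
  have : (-((y : ℂ) * Complex.I)) ^ k = (-Complex.I) ^ k * (y : ℂ) ^ k := by
    rw [← mul_pow]; congr 1; ring
  rw [this]; ring

theorem dg_sum [DecidableEq ι] (θ : ℂ) (η : ι → ℝ) :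
    dg S.m θ (cv η) = ∑ j, ((η j : ℂ) * θ ^ S.m j) • (Pi.single j 1 : ι → ℂ) := by
  ext k
  rw [dg_apply]
  simp [cv, Finset.sum_apply, Pi.single_apply, mul_comm]

theorem pp_sum [DecidableEq ι] {r : ℕ} (e : Fin r × L) (θ : ℂ) (η : ι → ℝ) (y : ℝ) :
    ∑ j, (η j : ℂ) * θ ^ (S.m j) * (pp S e j).eval (y : ℂ) =
      S.c e.1 (ex (S.Nq 0) (-(y * Complex.I)) (dg S.m θ (cv η))) e.2 := by
  rw [dg_sum]
  simp only [map_sum, map_smul, Finset.sum_apply, Pi.smul_apply, smul_eq_mul, pp_eval]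

end Appr

/-- package C1 -/
theorem approx (qe : QEStatement) : ApproxStatement := by
  intro ι L _ _ _ S r h
  obtain ⟨Y, hY⟩ := qe ι (Fin r × L) S.m (fun e j => Appr.pp S e j) (by
    intro Y
    obtain ⟨Y2, hY2⟩ := eventually_atTop.mp (Appr.approx_op S r)
    obtain ⟨z, hz, hqz, x, hx, ho⟩ := h (max Y Y2)
    obtain ⟨θ, hθ, hqθ, η, hη, he⟩ := Appr.normal_form S r x hx z hqz ho
    refine ⟨z.im, lt_of_le_of_lt (le_max_left _ _) hz, θ, hθ, η, hη, fun e => ?_⟩
    rw [Appr.pp_sum]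
    have h1 := hY2 z.im (le_of_lt (lt_of_le_of_lt (le_max_right _ _) hz)) (qexp z) (norm_qq z)
      e.1 e.1.2
    have h2 := he e.1 e.1.2
    set v := dg S.m θ (cv η) with hvdef
    have hv : ‖v‖ ≤ 1 := by
      rw [pi_norm_le_iff_of_nonneg zero_le_one]
      intro j
      rw [hvdef, Appr.dg_apply, norm_mul, norm_pow, hθ, one_pow, one_mul]
      simp only [cv]
      rw [Complex.norm_real, Real.norm_eq_abs, ← sq_le_one_iff_abs_le_one, ← hη]
      exact Finset.single_le_sum (f := fun j => η j ^ 2) (fun i _ => sq_nonneg _)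
        (Finset.mem_univ j)
    have h3 : ‖S.c e.1 (ex (S.Nq 0) (-(z.im * Complex.I)) v)‖ ≤ Real.exp (-z.im) := by
      have h4 : S.c e.1 (ex (S.Nq 0) (-(z.im * Complex.I)) v) =
          -(((Appr.bb S e.1 (qexp z)).comp (ex (S.Nq (qexp z)) (-(z.im * Complex.I))) -
          (S.c e.1).comp (ex (S.Nq 0) (-(z.im * Complex.I)))) v) := by
        rw [_root_.sub_apply, ContinuousLinearMap.comp_apply, ContinuousLinearMap.comp_apply, h2]
        simp
      rw [h4, norm_neg]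
      refine (ContinuousLinearMap.le_opNorm _ _).trans ?_
      calc _ ≤ Real.exp (-z.im) * 1 := by gcongr
        _ = _ := mul_one _
    exact (norm_le_pi_norm _ e.2).trans h3)
  refine ⟨Y, fun y hy => ?_⟩
  obtain ⟨θ, hθ, η, hη, he⟩ := hY y hy
  refine ⟨θ, hθ, η, ?_, fun i hi => ?_⟩
  · rintro rfl
    simp at hη
  · ext l
    have := he (⟨i, hi⟩, l)
    rw [Appr.pp_sum] at this
    exact this

end Pool.Agent.T2H44.RC
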