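import Pool.Agent.T2H44.RC.Cx
import Pool.Agent.T2H44.RC.Adapt

/-!
# Coordinates adapted to a filtration which is stable under a nilpotent operator
-/

namespace Pool.Agent.T2H44.RC.P

open Filter Topology Metric Submodule Pool.Agent.T2H44.RC

theorem exists_coord {V : Type} [AddCommGroup V] [Module ℝ V] [FiniteDimensional ℝ V]
    (U : ℕ → Submodule ℝ V) (hU : Antitone U) (hU0 : U 0 = ⊤) (Ui : Submodule ℝ V)
    (hUi : ∀ m, Ui ≤ U m) (hUi' : ∀ w, (∀ m, w ∈ U m) → w ∈ Ui) :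
    ∃ (ι : Type) (_ : Fintype ι) (m : ι → ℕ) (P : V →ₗ[ℝ] (ι → ℝ)) (E : (ι → ℝ) →ₗ[ℝ] V),
      (∀ x, P (E x) = x) ∧ (∀ w ∈ Ui, P w = 0) ∧ (∀ w, w - E (P w) ∈ Ui) ∧
      (∀ a, ∀ w ∈ U a, ∀ j, m j < a → P w j = 0) ∧
      (∀ a x, (∀ j, x j ≠ 0 → m j = a) → E x ∈ U a) ∧
      (∀ a x, (∀ j, x j ≠ 0 → m j = a) → E x ∈ U (a + 1) → x = 0) ∧
      Fintype.card ι ≤ Module.finrank ℝ V := by
  classical
  obtain ⟨C, hC⟩ := Submodule.exists_isCompl Ui
  have hC' : IsCompl C Ui := hC.symm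
  have hanti : Antitone fun a => U a ⊓ C := fun a b hab => inf_le_inf_right _ (hU hab)
  obtain ⟨M, hM⟩ : ∃ M, U M ⊓ C = ⊥ := by
    obtain ⟨M, hM⟩ := IsArtinian.monotone_stabilizes (R := ℝ) (M := V)
      ⟨fun a => OrderDual.toDual (U a ⊓ C), fun a b hab => hanti hab⟩
    refine ⟨M, ?_⟩
    rw [eq_bot_iff]
    intro w hw
    rw [Submodule.mem_bot]
    refine Submodule.disjoint_def.1 hC'.disjoint w hw.2 (hUi' w fun a => ?_)
    rcases le_total a M with h | h
    · exact hU h hw.1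
    · have h1 : U M ⊓ C = U a ⊓ C := hM a h
      rw [h1] at hw
      exact hw.1
  obtain ⟨ι, _, e, m, hli, hsp, hmem, hind⟩ := adapted M (fun a => U a ⊓ C) hanti hM
  rw [hU0, top_inf_eq] at hsp
  set E : (ι → ℝ) →ₗ[ℝ] V := Fintype.linearCombination ℝ e with hE
  have hEa : ∀ x, E x = ∑ j, x j • e j := fun x => Fintype.linearCombination_apply _ _ _
  have hEC : ∀ x, E x ∈ C := fun x => by
    rw [hEa]
    exact Submodule.sum_mem _ fun j _ => Submodule.smul_mem _ _ (hmem j).2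
  have hEinj : ∀ x, E x = 0 → x = 0 := fun x hx => by
    rw [hEa] at hx
    exact funext (Fintype.linearIndependent_iff.1 hli x hx)
  set Φ : ((ι → ℝ) × Ui) →ₗ[ℝ] V := E.coprod Ui.subtype with hΦ
  have hΦa : ∀ x u, Φ (x, u) = E x + u := fun x u => rfl
  have hbij : Function.Bijective Φ := by
    constructor
    · rw [injective_iff_map_eq_zero]
      rintro ⟨x, u⟩ h
      rw [hΦa] at h
      have h1 : E x ∈ Ui := by
        have : E x = -(u : V) := eq_neg_of_add_eq_zero_left h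
        rw [this]
        exact Ui.neg_mem u.2
      have h2 := Submodule.disjoint_def.1 hC'.disjoint _ (hEC x) h1
      have h3 := hEinj x h2
      rw [h2, zero_add] at h
      rw [Prod.mk_eq_zero]
      exact ⟨h3, Subtype.ext h⟩
    · intro w
      have hw : w ∈ C ⊔ Ui := by rw [hC'.sup_eq_top]; exact Submodule.mem_top
      obtain ⟨c, hc, u, hu, rfl⟩ := Submodule.mem_sup.1 hw
      rw [← hsp, Submodule.mem_span_range_iff_exists_fun] at hc
      obtain ⟨x, rfl⟩ := hc
      exact ⟨(x, ⟨u, hu⟩), by rw [hΦa, hEa]⟩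
  set Φe := LinearEquiv.ofBijective Φ hbij with hΦe
  set P : V →ₗ[ℝ] (ι → ℝ) := (LinearMap.fst ℝ _ _) ∘ₗ (Φe.symm : V →ₗ[ℝ] ((ι → ℝ) × Ui)) with hP
  have hPE : ∀ x (u : Ui), P (E x + u) = x := by
    intro x u
    show (Φe.symm (E x + u)).1 = x
    have : Φe.symm (E x + u) = (x, u) := by
      rw [LinearEquiv.symm_apply_eq]
      rfl
    rw [this]
  have hdec : ∀ w, w - E (P w) ∈ Ui := by
    intro w
    obtain ⟨⟨x, u⟩, hxu⟩ := hbij.2 w
    rw [hΦa] at hxu
    rw [← hxu, hPE, add_sub_cancel_left]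
    exact u.2
  have hPE' : ∀ x, P (E x) = x := fun x => by simpa using hPE x 0
  have hPU : ∀ w ∈ Ui, P w = 0 := fun w hw => by simpa using hPE 0 ⟨w, hw⟩
  refine ⟨ι, inferInstance, m, P, E, hPE', hPU, hdec, ?_, ?_, ?_, ?_⟩
  · -- coordinates
    intro a w hw j hj
    by_contra hne
    obtain ⟨j₀, hj₀, hmin⟩ := Finset.exists_min_image
      (Finset.univ.filter fun j => P w j ≠ 0 ∧ m j < a) m ⟨j, by simp [hne, hj]⟩
    rw [Finset.mem_filter] at hj₀
    obtain ⟨-, hj₀1, hj₀2⟩ := hj₀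
    set x := P w with hx
    set x₀ : ι → ℝ := fun j => if m j = m j₀ then x j else 0 with hx₀
    have hle : U a ≤ U (m j₀ + 1) := hU (by omega)
    have h1 : E x₀ ∈ U (m j₀ + 1) := by
      have h2 : E x₀ = w - (w - E x) - ∑ j, (if m j = m j₀ then 0 else x j) • e j := by
        rw [sub_sub_cancel, hEa, hEa, ← Finset.sum_sub_distrib]
        refine Finset.sum_congr rfl fun j _ => ?_
        rw [hx₀]
        by_cases h : m j = m j₀
        · simp [h]
        · simp [h]
      rw [h2]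
      refine Submodule.sub_mem _ (Submodule.sub_mem _ (hle hw) (hUi _ (hdec w)))
        (Submodule.sum_mem _ fun j _ => ?_)
      by_cases h : m j = m j₀
      · rw [if_pos h, zero_smul]; exact Submodule.zero_mem _
      rw [if_neg h]
      by_cases hxj : x j = 0
      · rw [hxj, zero_smul]; exact Submodule.zero_mem _
      · apply Submodule.smul_mem
        have h3 : m j₀ + 1 ≤ m j := by
          by_cases hja : m j < a
          · have := hmin j (by simp [hxj, hja])
            omega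
          · omega
        exact hU h3 (hmem j).1
    have h4 := hind (m j₀) x₀ (fun j hj => by
      by_contra h
      rw [hx₀] at hj
      simp [h] at hj) (by rw [← hEa]; exact ⟨h1, hEC _⟩)
    have h5 := congrFun h4 j₀
    rw [hx₀] at h5
    simp at h5
    exact hj₀1 h5
  · intro a x hx
    rw [hEa]
    refine Submodule.sum_mem _ fun j _ => ?_
    by_cases h : x j = 0
    · rw [h, zero_smul]; exact Submodule.zero_mem _
    · rw [← hx j h]
      exact Submodule.smul_mem _ _ (hmem j).1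
  · intro a x hx h
    exact hind a x hx (by rw [← hEa]; exact ⟨h, hEC x⟩)
  · exact hli.fintype_card_le_finrank

section

variable {ι : Type} [Fintype ι] [DecidableEq ι]

/-- the operator `N(q)` -/
noncomputable def NQ (m : ι → ℕ) (nn : ι → ι → ℝ) (q : ℂ) : (ι → ℂ) →L[ℂ] (ι → ℂ) :=
  ∑ k, ∑ j, (if m j ≤ m k then q ^ (m k - m j) * (nn k j : ℂ) else 0) •
    (ContinuousLinearMap.proj (R := ℂ) (φ := fun _ : ι => ℂ) j).smulRight (Pi.single k (1 : ℂ))

theorem NQ_apply (m : ι → ℕ) (nn : ι → ι → ℝ) (q : ℂ) (v : ι → ℂ) (k : ι) :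
    NQ m nn q v k = ∑ j, (if m j ≤ m k then q ^ (m k - m j) * (nn k j : ℂ) else 0) * v j := by
  unfold NQ
  simp only [_root_.sum_apply, _root_.smul_apply, ContinuousLinearMap.smulRight_apply,
    ContinuousLinearMap.proj_apply, Finset.sum_apply, Pi.smul_apply, smul_eq_mul]
  rw [Finset.sum_eq_single k]
  · refine Finset.sum_congr rfl fun j _ => ?_
    rw [Pi.single_eq_same, mul_one]
  · intro b _ hb
    refine Finset.sum_eq_zero fun j _ => ?_
    rw [Pi.single_eq_of_ne hb.symm, mul_zero, mul_zero]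
  · intro h
    exact absurd (Finset.mem_univ k) h

theorem NQ_diff (m : ι → ℕ) (nn : ι → ι → ℝ) : Differentiable ℂ (NQ m nn) := by
  unfold NQ
  refine Differentiable.fun_sum fun k _ => Differentiable.fun_sum fun j _ => ?_
  refine Differentiable.smul_const ?_ _
  by_cases h : m j ≤ m k
  · simp only [if_pos h]
    fun_prop
  · simp only [if_neg h]
    fun_prop

variable {m : ι → ℕ} {R : (ι → ℝ) →ₗ[ℝ] (ι → ℝ)}

theorem R_apply (R : (ι → ℝ) →ₗ[ℝ] (ι → ℝ)) (x : ι → ℝ) (k : ι) :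
    R x k = ∑ j, R (Pi.single j 1) k * x j := by
  have h1 : x = ∑ i, x i • Pi.single i (1 : ℝ) := by
    ext j
    simp [Finset.sum_apply, Pi.single_apply]
  conv_lhs => rw [h1]
  rw [map_sum, Finset.sum_apply]
  refine Finset.sum_congr rfl fun j _ => ?_
  rw [map_smul, Pi.smul_apply, smul_eq_mul, mul_comm]

theorem cxm_apply (R : (ι → ℝ) →ₗ[ℝ] (ι → ℝ)) (v : ι → ℂ) (k : ι) :
    cxm R v k = ∑ j, (R (Pi.single j 1) k : ℂ) * v j := by
  unfold cxm
  simp only [_root_.sum_apply, ContinuousLinearMap.smulRight_apply,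
    ContinuousLinearMap.proj_apply, Finset.sum_apply, Pi.smul_apply, smul_eq_mul, cv]
  exact Finset.sum_congr rfl fun j _ => mul_comm _ _

theorem NQ_dg (h : ∀ j k, m k < m j → R (Pi.single j 1) k = 0) (q : ℂ) (v : ι → ℂ) :
    NQ m (fun k j => R (Pi.single j 1) k) q (dg m q v) = dg m q (cxm R v) := by
  funext k
  rw [NQ_apply, dg_apply, cxm_apply, Finset.mul_sum]
  refine Finset.sum_congr rfl fun j _ => ?_
  rw [dg_apply]
  by_cases hjk : m j ≤ m k
  · rw [if_pos hjk]
    have : q ^ m k = q ^ (m k - m j) * q ^ m j := by rw [← pow_add, Nat.sub_add_cancel hjk]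
    rw [this]
    ring
  · rw [if_neg hjk, h j k (by omega)]
    simp

theorem NQ_zero_entry (nn : ι → ι → ℝ) (k j : ι) :
    (if m j ≤ m k then (0 : ℂ) ^ (m k - m j) * (nn k j : ℂ) else 0)
      = if m j = m k then (nn k j : ℂ) else 0 := by
  by_cases h : m j = m k
  · simp [h]
  · by_cases h2 : m j ≤ m k
    · rw [if_pos h2, if_neg h, zero_pow (by omega), zero_mul]
    · rw [if_neg h2, if_neg h]

theorem NQ0_dg (nn : ι → ι → ℝ) (t : ℂ) (v : ι → ℂ) :
    NQ m nn 0 (dg m t v) = dg m t (NQ m nn 0 v) := by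
  funext k
  rw [NQ_apply, dg_apply, NQ_apply, Finset.mul_sum]
  refine Finset.sum_congr rfl fun j _ => ?_
  rw [dg_apply, NQ_zero_entry]
  by_cases h : m j = m k
  · rw [if_pos h, h]; ring
  · rw [if_neg h]; simp

theorem NQ0_real (nn : ι → ι → ℝ) (x : ι → ℝ) : ∃ y : ι → ℝ, NQ m nn 0 (cv x) = cv y := by
  refine ⟨fun k => ∑ j, (if m j = m k then nn k j else 0) * x j, ?_⟩
  funext k
  rw [NQ_apply]
  simp only [cv]
  push_cast
  refine Finset.sum_congr rfl fun j _ => ?_
  rw [NQ_zero_entry]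
  split_ifs <;> simp

theorem NQ_pow_dg (h : ∀ j k, m k < m j → R (Pi.single j 1) k = 0) (q : ℂ) (i : ℕ) (v : ι → ℂ) :
    ((NQ m (fun k j => R (Pi.single j 1) k) q) ^ i) (dg m q v) = dg m q (((cxm R) ^ i) v) := by
  induction i generalizing v with
  | zero => simp
  | succ k ih =>
    rw [pow_succ, ContinuousLinearMap.mul_apply, NQ_dg h, ih, pow_succ,
      ContinuousLinearMap.mul_apply]

theorem NQ_nilp {K : ℕ} (h : ∀ j k, m k < m j → R (Pi.single j 1) k = 0)
    (hR : (cxm R) ^ K = 0) (q : ℂ) : (NQ m (fun k j => R (Pi.single j 1) k) q) ^ K = 0 := by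
  have h2 : ∀ q : ℂ, q ≠ 0 → (NQ m (fun k j => R (Pi.single j 1) k) q) ^ K = 0 := by
    intro q hq
    ext1 v
    obtain ⟨w, rfl⟩ := dg_surj m hq v
    rw [NQ_pow_dg h, hR]
    simp
  have h3 : Continuous fun q => (NQ m (fun k j => R (Pi.single j 1) k) q) ^ K :=
    (NQ_diff m _).continuous.pow K
  have h4 : (fun q => (NQ m (fun k j => R (Pi.single j 1) k) q) ^ K) = fun _ => 0 :=
    Continuous.ext_on (dense_compl_singleton (0 : ℂ)) h3 continuous_const fun q hq => h2 q hq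
  exact congrFun h4 q

end

end Pool.Agent.T2H44.RC.P
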