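import Mathlib

/-!
# Real combinations of vector valued functions with a zero of high order near a given point

The analytic core: a zero estimate for real combinations of the functions `u ^ (k j) β_j(u)`.
-/

namespace Pool.Agent.T2H44.RC

open Filter Topology Metric

variable {ι L : Type} [Fintype ι] [Fintype L]

/-- Euler operator minus `m` -/
noncomputable def T (m : ℕ) (f : ℂ → L → ℂ) : ℂ → L → ℂ :=
  fun u => u • deriv f u - (m : ℂ) • f u

theorem order_T {m s : ℕ} {f : ℂ → L → ℂ} {u₀ : ℂ} (hf : AnalyticAt ℂ f u₀)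
    (h : ((s + 1 : ℕ) : ℕ∞) ≤ analyticOrderAt f u₀) :
    (s : ℕ∞) ≤ analyticOrderAt (T m f) u₀ := by
  have h0 : f u₀ = 0 := by
    apply apply_eq_zero_of_analyticOrderAt_ne_zero
    intro h1
    rw [h1] at h
    simp at h
  have h1 : (s : ℕ∞) ≤ analyticOrderAt (deriv f) u₀ := by
    rw [analyticOrderAt_deriv_ge_iff hf h0]
    exact_mod_cast h
  have h2 : (s : ℕ∞) ≤ analyticOrderAt (fun u : ℂ => u • deriv f u) u₀ := by
    have := analyticOrderAt_smul (f := fun u : ℂ => u) (g := deriv f) (z₀ := u₀)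
      analyticAt_id hf.deriv
    change analyticOrderAt (fun u : ℂ => u • deriv f u) u₀ = _ at this
    rw [this]
    exact le_trans h1 le_add_self
  have h3 : (s : ℕ∞) ≤ analyticOrderAt (fun u : ℂ => (m : ℂ) • f u) u₀ := by
    have := analyticOrderAt_smul (f := fun u : ℂ => (m : ℂ)) (g := f) (z₀ := u₀)
      analyticAt_const hf
    change analyticOrderAt (fun u : ℂ => (m : ℂ) • f u) u₀ = _ at this
    rw [this]
    refine le_trans ?_ (le_trans h le_add_self)
    exact_mod_cast Nat.le_succ s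
  exact le_trans (le_min h2 h3) le_analyticOrderAt_sub

theorem analyticAt_T {m : ℕ} {f : ℂ → L → ℂ} {u₀ : ℂ} (hf : AnalyticAt ℂ f u₀) :
    AnalyticAt ℂ (T m f) u₀ := by
  have h := hf.deriv
  unfold T
  fun_prop

/-- the operator on the coefficient functions -/
noncomputable def Bop (k m : ℕ) (b : ℂ → L → ℂ) : ℂ → L → ℂ :=
  fun u => ((k : ℂ) - m) • b u + u • deriv b u

theorem analyticAt_Bop {k m : ℕ} {b : ℂ → L → ℂ} {u₀ : ℂ} (hb : AnalyticAt ℂ b u₀) :
    AnalyticAt ℂ (Bop k m b) u₀ := by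
  have h := hb.deriv
  unfold Bop
  fun_prop

theorem T_sum {k : ι → ℕ} {ρ : ℝ} {β : ι → ℂ → L → ℂ}
    (hβ : ∀ j, AnalyticOnNhd ℂ (β j) (ball 0 ρ)) (x : ι → ℝ) (m : ℕ) {F : ℂ → L → ℂ}
    (hF : ∀ u ∈ ball (0 : ℂ) ρ, F u = ∑ j, ((x j : ℂ) * u ^ k j) • β j u) :
    ∀ u ∈ ball (0 : ℂ) ρ, T m F u = ∑ j, ((x j : ℂ) * u ^ k j) • Bop (k j) m (β j) u := by
  intro u hu
  have h1 : F =ᶠ[𝓝 u] fun u => ∑ j, ((x j : ℂ) * u ^ k j) • β j u := by
    filter_upwards [isOpen_ball.mem_nhds hu] with v hv using hF v hv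
  have h2 : ∀ j, HasDerivAt (fun u : ℂ => ((x j : ℂ) * u ^ k j) • β j u)
      (((x j : ℂ) * u ^ k j) • deriv (β j) u
        + ((x j : ℂ) * ((k j : ℂ) * u ^ (k j - 1))) • β j u) u := by
    intro j
    have h3 : HasDerivAt (fun u : ℂ => (x j : ℂ) * u ^ k j)
        ((x j : ℂ) * ((k j : ℂ) * u ^ (k j - 1))) u := (hasDerivAt_pow (k j) u).const_mul _
    exact h3.smul (hβ j u hu).differentiableAt.hasDerivAt
  have h4 : deriv F u = ∑ j, (((x j : ℂ) * u ^ k j) • deriv (β j) u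
        + ((x j : ℂ) * ((k j : ℂ) * u ^ (k j - 1))) • β j u) := by
    rw [h1.deriv_eq]
    have := HasDerivAt.fun_sum (u := Finset.univ) fun j _ => h2 j
    exact this.deriv
  unfold T
  rw [h4, hF u hu, Finset.smul_sum, Finset.smul_sum, ← Finset.sum_sub_distrib]
  refine Finset.sum_congr rfl fun j _ => ?_
  have h5 : u * ((k j : ℂ) * u ^ (k j - 1)) = (k j : ℂ) * u ^ k j := by
    rcases Nat.eq_zero_or_pos (k j) with h | h
    · simp [h]
    · obtain ⟨t, ht⟩ := Nat.exists_eq_add_of_le h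
      rw [ht]
      simp only [Nat.add_sub_cancel_left]
      ring
  unfold Bop
  rw [smul_add, smul_smul, smul_smul, smul_smul, smul_add, smul_smul, smul_smul]
  have e1 : u * ((x j : ℂ) * ((k j : ℂ) * u ^ (k j - 1))) = (x j : ℂ) * ((k j : ℂ) * u ^ k j) := by
    rw [← h5]; ring
  rw [e1]
  ext l
  simp only [Pi.add_apply, Pi.sub_apply, Pi.smul_apply, smul_eq_mul]
  ring

/-- iteration of the operators -/
noncomputable def TL : List ℕ → (ℂ → L → ℂ) → ℂ → L → ℂ
  | [], f => f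
  | m :: l, f => TL l (T m f)

noncomputable def BL (k : ℕ) : List ℕ → (ℂ → L → ℂ) → ℂ → L → ℂ
  | [], b => b
  | m :: l, b => BL k l (Bop k m b)

theorem BL_analytic {k : ℕ} {ρ : ℝ} (l : List ℕ) {b : ℂ → L → ℂ}
    (hb : AnalyticOnNhd ℂ b (ball 0 ρ)) : AnalyticOnNhd ℂ (BL k l b) (ball 0 ρ) := by
  induction l generalizing b with
  | nil => exact hb
  | cons m l ih => exact ih fun u hu => analyticAt_Bop (hb u hu)

theorem BL_zero {k : ℕ} (l : List ℕ) (b : ℂ → L → ℂ) :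
    BL k l b 0 = (l.map fun m : ℕ => (k : ℂ) - m).prod • b 0 := by
  induction l generalizing b with
  | nil => simp [BL]
  | cons m l ih =>
    rw [BL, ih, List.map_cons, List.prod_cons]
    unfold Bop
    rw [zero_smul, add_zero, smul_smul, mul_comm]

theorem TL_sum {k : ι → ℕ} {ρ : ℝ} (l : List ℕ) {β : ι → ℂ → L → ℂ}
    (hβ : ∀ j, AnalyticOnNhd ℂ (β j) (ball 0 ρ)) (x : ι → ℝ) {F : ℂ → L → ℂ}
    (hF : ∀ u ∈ ball (0 : ℂ) ρ, F u = ∑ j, ((x j : ℂ) * u ^ k j) • β j u) :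
    ∀ u ∈ ball (0 : ℂ) ρ, TL l F u = ∑ j, ((x j : ℂ) * u ^ k j) • BL (k j) l (β j) u := by
  induction l generalizing β F with
  | nil => exact hF
  | cons m l ih =>
    exact ih (fun j u hu => analyticAt_Bop (hβ j u hu)) (T_sum hβ x m hF)

theorem order_TL {s : ℕ} (l : List ℕ) {f : ℂ → L → ℂ} {u₀ : ℂ} (hf : AnalyticAt ℂ f u₀)
    (h : ((s + l.length : ℕ) : ℕ∞) ≤ analyticOrderAt f u₀) :
    (s : ℕ∞) ≤ analyticOrderAt (TL l f) u₀ := by
  induction l generalizing f with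
  | nil => simpa [TL] using h
  | cons m l ih =>
    refine ih (analyticAt_T hf) (order_T hf ?_)
    simpa [add_assoc] using h

/-- **The analytic core.** -/
theorem core (deep : L → Prop) (r : ℕ) (hr : 1 ≤ r) (k : ι → ℕ) (I1 : ι → Prop) {ρ : ℝ}
    (hρ : 0 < ρ) (β : ι → ℂ → L → ℂ) (hβ : ∀ j, AnalyticOnNhd ℂ (β j) (ball 0 ρ))
    (h1 : ∀ j, I1 j → k j = 0)
    (hd0 : ∀ j, ¬ I1 j → ∀ l, deep l → β j 0 l = 0)
    (hd1 : ∀ x : ι → ℝ, (∀ j, ¬ I1 j → x j = 0) →
      (∀ l, deep l → ∑ j, (x j : ℂ) * β j 0 l = 0) → x = 0)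
    (hi : ∀ (a : ℕ) (x : ι → ℝ), (∀ j, x j ≠ 0 → ¬ I1 j ∧ k j = a) →
      (∀ l, ∑ j, (x j : ℂ) * β j 0 l = 0) → x = 0)
    (S : Finset ℕ) (hS : ∀ j, ¬ I1 j → k j ∈ S) (hSr : S.card ≤ r) :
    ∀ᶠ u in 𝓝[≠] (0 : ℂ), ∀ x : ι → ℝ,
      (r : ℕ∞) ≤ analyticOrderAt (fun v => ∑ j, ((x j : ℂ) * v ^ k j) • β j v) u → x = 0 := by
  classical
  by_contra hcon
  rw [Filter.not_eventually] at hcon
  have hb : ∀ᶠ u in 𝓝[≠] (0 : ℂ), u ∈ ball (0 : ℂ) ρ :=
    nhdsWithin_le_nhds (isOpen_ball.mem_nhds (mem_ball_self hρ))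
  have hne : ∀ᶠ u in 𝓝[≠] (0 : ℂ), u ≠ 0 := self_mem_nhdsWithin
  obtain ⟨u, hu, hux⟩ := Filter.exists_seq_forall_of_frequently
    (hcon.and_eventually (hb.and hne))
  have hu0 : Tendsto u atTop (𝓝 0) := tendsto_nhds_of_tendsto_nhdsWithin hu
  have hex : ∀ n, ∃ x : ι → ℝ, (r : ℕ∞) ≤
      analyticOrderAt (fun v => ∑ j, ((x j : ℂ) * v ^ k j) • β j v) (u n) ∧ x ≠ 0 := by
    intro n
    have := (hux n).1
    push Not at this
    exact this
  choose x hx hx0 using hex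
  have hub : ∀ n, u n ∈ ball (0 : ℂ) ρ := fun n => (hux n).2.1
  have hun : ∀ n, u n ≠ 0 := fun n => (hux n).2.2
  have hunn : ∀ n, 0 < ‖u n‖ := fun n => norm_pos_iff.2 (hun n)
  -- the relations
  have hrel : ∀ (l : List ℕ), l.length + 1 ≤ r → ∀ n,
      ∑ j, ((x n j : ℂ) * u n ^ k j) • BL (k j) l (β j) (u n) = 0 := by
    intro l hl n
    have ha : AnalyticAt ℂ (fun v => ∑ j, ((x n j : ℂ) * v ^ k j) • β j v) (u n) := by
      refine Finset.analyticAt_fun_sum _ fun j _ => ?_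
      exact (analyticAt_const.mul (analyticAt_id.pow _)).smul (hβ j _ (hub n))
    have h2 := order_TL (s := 1) l ha (le_trans (by exact_mod_cast (by omega)) (hx n))
    rw [← TL_sum (k := k) l hβ (x n) (fun v _ => rfl) (u n) (hub n)]
    apply apply_eq_zero_of_analyticOrderAt_ne_zero
    intro h3
    rw [h3] at h2
    simp at h2
  -- normalisation
  set y : ℕ → ι → ℝ := fun n j => x n j * ‖u n‖ ^ k j with hy
  have hy0 : ∀ n, y n ≠ 0 := by
    intro n h
    apply hx0 n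
    funext j
    have := congrFun h j
    simp only [hy, Pi.zero_apply, mul_eq_zero] at this
    rcases this with h | h
    · exact h
    · exact absurd h (pow_ne_zero _ (hunn n).ne')
  have hyn : ∀ n, 0 < ‖y n‖ := fun n => norm_pos_iff.2 (hy0 n)
  set ξ : ℕ → ι → ℝ := fun n => (‖y n‖)⁻¹ • y n with hξ
  set θ : ℕ → ℂ := fun n => u n / (‖u n‖ : ℂ) with hθ
  have hξs : ∀ n, (ξ n, θ n) ∈ sphere (0 : ι → ℝ) 1 ×ˢ sphere (0 : ℂ) 1 := by
    intro n
    refine ⟨?_, ?_⟩
    · rw [mem_sphere_zero_iff_norm, hξ, norm_smul, norm_inv, norm_norm,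
        inv_mul_cancel₀ (hyn n).ne']
    · rw [mem_sphere_zero_iff_norm, hθ, norm_div, Complex.norm_real, norm_norm,
        div_self (hunn n).ne']
  obtain ⟨⟨ξ₀, θ₀⟩, hmem, φ, hφ, hlim⟩ :=
    ((isCompact_sphere (0 : ι → ℝ) 1).prod (isCompact_sphere (0 : ℂ) 1)).tendsto_subseq hξs
  have hξ0 : ‖ξ₀‖ = 1 := mem_sphere_zero_iff_norm.1 hmem.1
  have hθ0 : ‖θ₀‖ = 1 := mem_sphere_zero_iff_norm.1 hmem.2
  have hlξ : Tendsto (fun n => ξ (φ n)) atTop (𝓝 ξ₀) :=
    (continuous_fst.tendsto _).comp hlim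
  have hlθ : Tendsto (fun n => θ (φ n)) atTop (𝓝 θ₀) :=
    (continuous_snd.tendsto _).comp hlim
  have hlu : Tendsto (fun n => u (φ n)) atTop (𝓝 0) := hu0.comp hφ.tendsto_atTop
  have hrel2 : ∀ (l : List ℕ), l.length + 1 ≤ r →
      ∑ j, ((ξ₀ j : ℂ) * θ₀ ^ k j) • BL (k j) l (β j) 0 = 0 := by
    intro l hl
    have h2 : ∀ n, ∑ j, ((ξ n j : ℂ) * θ n ^ k j) • BL (k j) l (β j) (u n) = 0 := by
      intro n
      have h3 := hrel l hl n
      have h4 : ∀ j, ((ξ n j : ℂ) * θ n ^ k j) = ((‖y n‖ : ℂ))⁻¹ * ((x n j : ℂ) * u n ^ k j) := by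
        intro j
        have h5 : (‖u n‖ : ℂ) ≠ 0 := by exact_mod_cast (hunn n).ne'
        simp only [hξ, hθ, hy, Pi.smul_apply, smul_eq_mul]
        push_cast
        rw [div_pow]
        field_simp
      simp only [h4, mul_smul]
      rw [← Finset.smul_sum]
      simp only [mul_smul] at h3
      rw [h3, smul_zero]
    have h3 : Tendsto (fun n => ∑ j, ((ξ (φ n) j : ℂ) * θ (φ n) ^ k j) •
        BL (k j) l (β j) (u (φ n))) atTop
        (𝓝 (∑ j, ((ξ₀ j : ℂ) * θ₀ ^ k j) • BL (k j) l (β j) 0)) := by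
      refine tendsto_finsetSum _ fun j _ => ?_
      refine Tendsto.smul (Tendsto.mul ?_ (hlθ.pow _)) ?_
      · exact (Complex.continuous_ofReal.tendsto _).comp
          (((continuous_apply j).tendsto _).comp hlξ)
      · exact ((BL_analytic l (hβ j) 0 (mem_ball_self hρ)).continuousAt.tendsto).comp hlu
    have h4 : (fun n => ∑ j, ((ξ (φ n) j : ℂ) * θ (φ n) ^ k j) •
        BL (k j) l (β j) (u (φ n))) = fun _ => 0 := funext fun n => h2 (φ n)
    rw [h4] at h3
    exact (tendsto_nhds_unique h3 tendsto_const_nhds)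
  -- the deep coordinates
  have hI1 : ∀ j, I1 j → ξ₀ j = 0 := by
    have h2 := hrel2 [] (by simpa using hr)
    have h3 := hd1 (fun j => if I1 j then ξ₀ j else 0) (fun j hj => by simp [hj]) (by
      intro l hl
      have h4 := congrFun h2 l
      rw [Finset.sum_apply] at h4
      simp only [BL, Pi.smul_apply, smul_eq_mul, Pi.zero_apply] at h4
      refine Eq.trans (Finset.sum_congr rfl fun j _ => ?_) h4
      by_cases hj : I1 j
      · simp [hj, h1 j hj]
      · simp [hj, hd0 j hj l hl])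
    intro j hj
    have := congrFun h3 j
    simpa [hj] using this
  have hrest : ∀ j, ¬ I1 j → ξ₀ j = 0 := by
    intro j₀ hj₀
    set a := k j₀ with ha
    have haS : a ∈ S := hS j₀ hj₀
    have h2 := hrel2 (S.erase a).toList (by
      rw [Finset.length_toList, Finset.card_erase_of_mem haS]
      have : 0 < S.card := Finset.card_pos.2 ⟨a, haS⟩
      omega)
    have hprod : ∀ c : ℕ, ((S.erase a).toList.map fun m : ℕ => (c : ℂ) - m).prod
        = ∏ m ∈ S.erase a, ((c : ℂ) - m) := by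
      intro c
      rw [Finset.prod_map_toList]
    have hP : (∏ m ∈ S.erase a, ((a : ℂ) - m)) ≠ 0 := by
      refine Finset.prod_ne_zero_iff.2 fun m hm => ?_
      rw [sub_ne_zero]
      exact_mod_cast (Finset.ne_of_mem_erase hm).symm
    have h3 := hi a (fun j => if ¬ I1 j ∧ k j = a then ξ₀ j else 0) (fun j hj => by
      by_contra hc
      simp [hc] at hj) (by
      intro l
      have h4 := congrFun h2 l
      rw [Finset.sum_apply] at h4
      simp only [BL_zero, hprod, Pi.smul_apply, smul_eq_mul, Pi.zero_apply] at h4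
      have h5 : ∀ j, (ξ₀ j : ℂ) * θ₀ ^ k j * ((∏ m ∈ S.erase a, ((k j : ℂ) - m)) * β j 0 l)
          = (θ₀ ^ a * ∏ m ∈ S.erase a, ((a : ℂ) - m)) *
            (((if ¬ I1 j ∧ k j = a then ξ₀ j else 0 : ℝ) : ℂ) * β j 0 l) := by
        intro j
        by_cases hj : I1 j
        · simp [hj, hI1 j hj]
        · by_cases hk : k j = a
          · simp only [hj, not_false_eq_true, hk, and_self, if_true]
            ring
          · have h6 : (∏ m ∈ S.erase a, ((k j : ℂ) - m)) = 0 := by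
              refine Finset.prod_eq_zero (Finset.mem_erase.2 ⟨hk, hS j hj⟩) ?_
              simp
            simp [hk, h6]
      simp only [h5] at h4
      rw [← Finset.mul_sum, mul_eq_zero] at h4
      rcases h4 with h4 | h4
      · rcases mul_eq_zero.1 h4 with h6 | h6
        · have : θ₀ ≠ 0 := by
            intro h0
            rw [h0, norm_zero] at hθ0
            exact zero_ne_one hθ0
          exact absurd h6 (pow_ne_zero _ this)
        · exact absurd h6 hP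
      · exact h4)
    have := congrFun h3 j₀
    simpa [hj₀, ha] using this
  have : ξ₀ = 0 := by
    funext j
    by_cases hj : I1 j
    · exact hI1 j hj
    · exact hrest j hj
  rw [this, norm_zero] at hξ0
  exact zero_ne_one hξ0

end Pool.Agent.T2H44.RC
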