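import Pool.Agent.T2H44.RC.Stm
import Pool.Agent.Y92.GS.Frames

/-!
# The abstract form of the functions near a puncture, and statements of two packages

`G v z = b(q) T_q exp (-z N) v`, `q = exp (2 π i z)`, `T_q = diag (q ^ (m_j))`, where
`N(q) T_q = T_q N` with `N(q)` holomorphic at `q = 0`.
-/

namespace Pool.Agent.T2H44.RC

open Metric Pool.Agent.Y92.Gap Pool.Agent.Y92.RS

/-- the complex vector with the real coordinates `x` -/
def cv {ι : Type} (x : ι → ℝ) : ι → ℂ := fun i => ((x i : ℝ) : ℂ)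

/-- the diagonal operator `v ↦ (t ^ (m_j) v_j)_j` -/
noncomputable def dg {ι : Type} [Fintype ι] (m : ι → ℕ) (t : ℂ) : (ι → ℂ) →L[ℂ] (ι → ℂ) :=
  ContinuousLinearMap.pi fun j => (t ^ m j) • ContinuousLinearMap.proj j

/-- the diagonal operator `v ↦ (m_j v_j)_j` -/
noncomputable def wt {ι : Type} [Fintype ι] (m : ι → ℕ) : (ι → ℂ) →L[ℂ] (ι → ℂ) :=
  ContinuousLinearMap.pi fun j => (m j : ℂ) • ContinuousLinearMap.proj j

/-- the data of the functions near a puncture -/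
structure CuspModel (ι L : Type) [Fintype ι] [Fintype L] where
  /-- the orders -/
  m : ι → ℕ
  K : ℕ
  /-- logarithm of the monodromy -/
  N : (ι → ℂ) →L[ℂ] (ι → ℂ)
  N_nilp : N ^ K = 0
  N_real : ∀ x : ι → ℝ, ∃ y : ι → ℝ, N (cv x) = cv y
  Nq : ℂ → (ι → ℂ) →L[ℂ] (ι → ℂ)
  Nq_diff : Differentiable ℂ Nq
  Nq_nilp : ∀ q, Nq q ^ K = 0
  Nq_dg : ∀ q v, Nq q (dg m q v) = dg m q (N v)
  N0_real : ∀ x : ι → ℝ, ∃ y : ι → ℝ, Nq 0 (cv x) = cv y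
  N0_dg : ∀ t v, Nq 0 (dg m t v) = dg m t (Nq 0 v)
  /-- the radius -/
  ρ : ℝ
  ρ_pos : 0 < ρ
  b : ℂ → (ι → ℂ) →L[ℂ] (L → ℂ)
  b_diff : DifferentiableOn ℂ b (ball 0 ρ)

namespace CuspModel

variable {ι L : Type} [Fintype ι] [Fintype L] (S : CuspModel ι L)

/-- the functions -/
noncomputable def G (v : ι → ℂ) (z : ℂ) : L → ℂ :=
  S.b (qexp z) (dg S.m (qexp z) (ex S.N (-z) v))

/-- the leading coefficients of the `i`-th derivative -/
noncomputable def c (i : ℕ) : (ι → ℂ) →L[ℂ] (L → ℂ) :=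
  (S.b 0).comp (((2 * Real.pi * Complex.I) • wt S.m - S.Nq 0) ^ i)

/-- exact solutions of the model equations at the height `y` -/
def Sol (r : ℕ) (y : ℝ) : Prop :=
  ∃ θ : ℂ, ‖θ‖ = 1 ∧ ∃ η : ι → ℝ, η ≠ 0 ∧
    ∀ i < r, S.c i (ex (S.Nq 0) (-(y * Complex.I)) (dg S.m θ (cv η))) = 0

end CuspModel

/-- package C1: zeros of order at least `r` for arbitrarily large `Im z` give solutions of the model
equations for all large `y` -/
def ApproxStatement : Prop :=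
  ∀ (ι L : Type) [Fintype ι] [DecidableEq ι] [Fintype L] (S : CuspModel ι L) (r : ℕ),
    (∀ y₁ : ℝ, ∃ z : ℂ, y₁ < z.im ∧ qexp z ∈ ball (0 : ℂ) S.ρ ∧
      ∃ x : ι → ℝ, x ≠ 0 ∧ (r : ℕ∞) ≤ analyticOrderAt (S.G (cv x)) z) →
    ∃ Y : ℝ, ∀ y : ℝ, Y < y → S.Sol r y

/-- package C2: the model equations do not have solutions for all large `y` -/
def ModelStatement : Prop :=
  ∀ (ι L : Type) [Fintype ι] [DecidableEq ι] [Fintype L] (S : CuspModel ι L) (r : ℕ)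
    (deep : L → Prop) (M₀ : L → L → ℂ) (H : Submodule ℝ (ι → ℝ)) (c : ℝ), 1 ≤ r →
    (∀ (a : ℕ) (x : ι → ℝ), (∀ j, x j ≠ 0 → S.m j = a) →
      (∀ i : ℕ, S.b 0 ((S.Nq 0 ^ i) (cv x)) = 0) → x = 0) →
    (∀ v l, deep l → S.c 1 v l = ∑ l', M₀ l l' * S.b 0 v l') →
    Fintype.card ι ≤ Module.finrank ℝ H + r →
    (∀ z : ℂ, c < z.im → ∀ x ∈ H,
      (∀ l, deep l → S.b 0 (ex (S.Nq 0) (-z) (dg S.m 0 (cv x))) l = 0) → x = 0) →
    ¬ ∃ Y : ℝ, ∀ y : ℝ, Y < y → S.Sol r y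

end Pool.Agent.T2H44.RC
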