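import Pool.Agent.T2H44.RC.Cusp

/-!
# Complexification of real linear maps, intertwining, derivatives
-/

namespace Pool.Agent.T2H44.RC.P

open Filter Topology Metric Pool.Agent.Y92.Gap Pool.Agent.Y92.RS Pool.Agent.Y92.GS
open Pool.Agent.T2H44.RC

variable {α β γ : Type} [Fintype α] [Fintype β] [Fintype γ]

theorem cv_add (x y : α → ℝ) : cv (x + y) = cv x + cv y := by ext i; simp [cv]

theorem cv_smul (t : ℝ) (x : α → ℝ) : cv (t • x) = (t : ℂ) • cv x := by ext i; simp [cv]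

theorem cv_zero : cv (0 : α → ℝ) = 0 := by ext i; simp [cv]

theorem cv_sum {κ : Type} (s : Finset κ) (f : κ → α → ℝ) : cv (∑ i ∈ s, f i) = ∑ i ∈ s, cv (f i) := by
  ext i; simp [cv, Finset.sum_apply]

theorem cv_inj {x y : α → ℝ} (h : cv x = cv y) : x = y := by
  ext i
  have := congrFun h i
  simpa [cv] using this

theorem cv_single [DecidableEq α] (i : α) : cv (Pi.single i (1 : ℝ)) = Pi.single i (1 : ℂ) := by
  ext j
  by_cases h : j = i
  · subst h; simp [cv]
  · simp [cv, Pi.single_eq_of_ne h]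

theorem eq_sum_single [DecidableEq α] (v : α → ℂ) : v = ∑ i, v i • Pi.single i (1 : ℂ) := by
  ext j
  simp [Finset.sum_apply, Pi.single_apply]

theorem ext_real [DecidableEq α] {E : Type} [AddCommGroup E] [Module ℂ E] [TopologicalSpace E]
    {A B : (α → ℂ) →L[ℂ] E} (h : ∀ x : α → ℝ, A (cv x) = B (cv x)) : A = B := by
  ext1 v
  rw [eq_sum_single v, map_sum, map_sum]
  refine Finset.sum_congr rfl fun i _ => ?_
  rw [map_smul, map_smul, ← cv_single, h]

/-- complexification -/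
noncomputable def cxm [DecidableEq α] (P : (α → ℝ) →ₗ[ℝ] (β → ℝ)) : (α → ℂ) →L[ℂ] (β → ℂ) :=
  ∑ i, (ContinuousLinearMap.proj i).smulRight (cv (P (Pi.single i 1)))

theorem cxm_cv [DecidableEq α] (P : (α → ℝ) →ₗ[ℝ] (β → ℝ)) (x : α → ℝ) :
    cxm P (cv x) = cv (P x) := by
  have h1 : x = ∑ i, x i • Pi.single i (1 : ℝ) := by
    ext j
    simp [Finset.sum_apply, Pi.single_apply]
  have h2 : P x = ∑ i, x i • P (Pi.single i 1) := by
    conv_lhs => rw [h1]
    rw [map_sum]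
    exact Finset.sum_congr rfl fun i _ => map_smul _ _ _
  rw [h2, cv_sum]
  unfold cxm
  rw [_root_.sum_apply]
  refine Finset.sum_congr rfl fun i _ => ?_
  rw [cv_smul]
  simp [cv]

theorem cxm_comp [DecidableEq α] [DecidableEq β] (P : (β → ℝ) →ₗ[ℝ] (γ → ℝ))
    (Q : (α → ℝ) →ₗ[ℝ] (β → ℝ)) : cxm (P ∘ₗ Q) = (cxm P).comp (cxm Q) := by
  apply ext_real
  intro x
  rw [cxm_cv, ContinuousLinearMap.comp_apply, cxm_cv, cxm_cv]
  rfl

theorem cxm_pow_cv [DecidableEq α] (P : (α → ℝ) →ₗ[ℝ] (α → ℝ)) (k : ℕ) (x : α → ℝ) :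
    ((cxm P) ^ k) (cv x) = cv ((P ^ k) x) := by
  induction k generalizing x with
  | zero => simp
  | succ k ih =>
    rw [pow_succ, ContinuousLinearMap.mul_apply, cxm_cv, ih, pow_succ]
    rfl

/-- intertwining of exponentials -/
theorem ex_intertwine {E F : Type} [NormedAddCommGroup E] [NormedSpace ℂ E] [CompleteSpace E]
    [NormedAddCommGroup F] [NormedSpace ℂ F] [CompleteSpace F] {T : E →L[ℂ] F} {A : E →L[ℂ] E}
    {B : F →L[ℂ] F} (h : ∀ v, T (A v) = B (T v)) {K K' : ℕ} (hA : A ^ K = 0) (hB : B ^ K' = 0)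
    (z : ℂ) (v : E) : T (ex A z v) = ex B z (T v) := by
  have hA' : A ^ (max K K') = 0 := pow_eq_zero_of_le (le_max_left _ _) hA
  have hB' : B ^ (max K K') = 0 := pow_eq_zero_of_le (le_max_right _ _) hB
  have hp : ∀ (k : ℕ) v, T ((A ^ k) v) = (B ^ k) (T v) := by
    intro k
    induction k with
    | zero => intro v; simp
    | succ k ih =>
      intro v
      rw [pow_succ, ContinuousLinearMap.mul_apply, ih, h, pow_succ, ContinuousLinearMap.mul_apply]
  rw [ex_eq_sum hA', ex_eq_sum hB', _root_.sum_apply, _root_.sum_apply, map_sum]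
  refine Finset.sum_congr rfl fun k _ => ?_
  rw [_root_.smul_apply, _root_.smul_apply, map_smul, hp]

theorem dg_apply (m : α → ℕ) (t : ℂ) (v : α → ℂ) (j : α) : dg m t v j = t ^ m j * v j := by
  simp [dg]

theorem wt_apply (m : α → ℕ) (v : α → ℂ) (j : α) : wt m v j = m j * v j := by
  simp [wt]

theorem dg_surj (m : α → ℕ) {t : ℂ} (ht : t ≠ 0) (v : α → ℂ) : ∃ w, dg m t w = v := by
  refine ⟨fun j => (t ^ m j)⁻¹ * v j, ?_⟩
  funext j
  rw [dg_apply, ← mul_assoc, mul_inv_cancel₀ (pow_ne_zero _ ht), one_mul]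

theorem hasDerivAt_dg (m : α → ℕ) {F : ℂ → α → ℂ} {F' : α → ℂ} {z : ℂ} (h : HasDerivAt F F' z) :
    HasDerivAt (fun z => dg m (qexp z) (F z))
      ((2 * Real.pi * Complex.I) • wt m (dg m (qexp z) (F z)) + dg m (qexp z) F') z := by
  rw [hasDerivAt_pi]
  intro j
  simp only [dg_apply, Pi.add_apply, Pi.smul_apply, wt_apply, smul_eq_mul]
  have h1 : HasDerivAt (fun z => qexp z ^ m j) (2 * Real.pi * Complex.I * (m j) * qexp z ^ m j) z := by
    have h2 : HasDerivAt qexp (2 * Real.pi * Complex.I * qexp z) z := hasDerivAt_qq z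
    have h3 := h2.pow (m j)
    refine h3.congr_deriv ?_
    rcases Nat.eq_zero_or_pos (m j) with h0 | h0
    · rw [h0]; simp
    · obtain ⟨k, hk⟩ : ∃ k, m j = k + 1 := ⟨m j - 1, by omega⟩
      rw [hk, Nat.add_sub_cancel, pow_succ]
      ring
  have h4 := h1.mul ((hasDerivAt_pi.1 h) j)
  refine h4.congr_deriv ?_
  ring

theorem diff_ex_neg {E : Type} [NormedAddCommGroup E] [NormedSpace ℂ E] [CompleteSpace E]
    (N : E →L[ℂ] E) (v : E) (z : ℂ) :
    HasDerivAt (fun z => ex N (-z) v) (-(N (ex N (-z) v))) z := by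
  have h1 : HasDerivAt (fun z : ℂ => -z) (-1) z := hasDerivAt_neg z
  have h2 := (hasDerivAt_ex_apply N (-z) v).scomp z h1
  refine h2.congr_deriv ?_
  rw [neg_one_smul]

/-- the derivative of the functions of a cusp model -/
theorem hasDerivAt_G {ι L : Type} [Fintype ι] [Fintype L] (S : CuspModel ι L) (v : ι → ℂ) {z : ℂ}
    (hz : qexp z ∈ ball (0 : ℂ) S.ρ) :
    HasDerivAt (S.G v) ((2 * Real.pi * Complex.I * qexp z) • (deriv S.b (qexp z))
      (dg S.m (qexp z) (ex S.N (-z) v)) + S.b (qexp z) ((2 * Real.pi * Complex.I) •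
        wt S.m (dg S.m (qexp z) (ex S.N (-z) v)) - S.Nq (qexp z)
          (dg S.m (qexp z) (ex S.N (-z) v)))) z := by
  have h1 : HasDerivAt S.b (deriv S.b (qexp z)) (qexp z) :=
    (S.b_diff.differentiableAt (isOpen_ball.mem_nhds hz)).hasDerivAt
  have h2 : HasDerivAt (fun z => S.b (qexp z))
      ((2 * Real.pi * Complex.I * qexp z) • deriv S.b (qexp z)) z :=
    HasDerivAt.scomp (h := qexp) z h1 (hasDerivAt_qq z)
  have h3 := hasDerivAt_dg S.m (diff_ex_neg S.N v z)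
  have h4 := h2.clm_apply h3
  refine h4.congr_deriv ?_
  rw [map_neg, ← S.Nq_dg, _root_.smul_apply, ← sub_eq_add_neg]

end Pool.Agent.T2H44.RC.P
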