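import Pool.Agent.T2H44.RC.Cusp
import Pool.Agent.T2H44.RC.Adapt
import Pool.Agent.Y92.RS.Cusp

/-!
# Package C2: the model equations do not have solutions for all large `y`
-/

namespace Pool.Agent.T2H44.RC

open Filter Topology Metric Submodule Pool.Agent.Y92.Gap Pool.Agent.Y92.RS
open scoped Nat

variable {ι L : Type} [Fintype ι] [Fintype L]

theorem dg_ap (m : ι → ℕ) (t : ℂ) (v : ι → ℂ) (j : ι) : dg m t v j = t ^ m j * v j := by
  simp [dg]

theorem wt_ap (m : ι → ℕ) (v : ι → ℂ) (j : ι) : wt m v j = m j * v j := by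
  simp [wt]

theorem dg_mul_ap (m : ι → ℕ) (s t : ℂ) (v : ι → ℂ) : dg m (s * t) v = dg m s (dg m t v) := by
  ext j
  simp only [dg_ap, mul_pow]
  ring

theorem dg_one_ap (m : ι → ℕ) (v : ι → ℂ) : dg m 1 v = v := by
  ext j
  simp only [dg_ap, one_pow, one_mul]

omit [Fintype ι] in
theorem cv_inj {x y : ι → ℝ} (h : cv x = cv y) : x = y := by
  funext j
  have := congrFun h j
  simpa [cv] using this

omit [Fintype ι] in
theorem cv_add (x y : ι → ℝ) : cv (x + y) = cv x + cv y := by
  ext j; simp [cv]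

omit [Fintype ι] in
theorem cv_smul (c : ℝ) (x : ι → ℝ) : cv (c • x) = (c : ℂ) • cv x := by
  ext j; simp [cv]

omit [Fintype ι] in
theorem cv_zero : cv (0 : ι → ℝ) = 0 := by
  ext j; simp [cv]

theorem hasDerivAt_qpow (z : ℂ) (k : ℕ) :
    HasDerivAt (fun z => qexp z ^ k) ((2 * Real.pi * Complex.I) * (k * qexp z ^ k)) z := by
  have h : HasDerivAt qexp (2 * Real.pi * Complex.I * qexp z) z := hasDerivAt_qq z
  refine (h.pow k).congr_deriv ?_
  rcases k with _ | k
  · simp
  · rw [Nat.add_sub_cancel, pow_succ]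
    ring

namespace CuspModel

variable (S : CuspModel ι L)

/-- the operator `2 π i wt - N₀` -/
noncomputable def A : (ι → ℂ) →L[ℂ] (ι → ℂ) :=
  (2 * Real.pi * Complex.I) • wt S.m - S.Nq 0

theorem c_eq (i : ℕ) (v : ι → ℂ) : S.c i v = S.b 0 ((S.A ^ i) v) := rfl

/-- the model curve -/
noncomputable def F (v : ι → ℂ) (z : ℂ) : ι → ℂ :=
  dg S.m (qexp z) (ex (S.Nq 0) (-z) v)

theorem ex_dg (t z : ℂ) (v : ι → ℂ) :
    ex (S.Nq 0) z (dg S.m t v) = dg S.m t (ex (S.Nq 0) z v) := by
  have hpow : ∀ (i : ℕ) (v : ι → ℂ), (S.Nq 0 ^ i) (dg S.m t v) = dg S.m t ((S.Nq 0 ^ i) v) := by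
    intro i
    induction i with
    | zero => intro v; rfl
    | succ i ih =>
      intro v
      rw [pow_succ]
      change (S.Nq 0 ^ i) (S.Nq 0 (dg S.m t v)) = _
      rw [S.N0_dg, ih]
      rfl
  rw [ex_eq_sum (S.Nq_nilp 0)]
  simp only [_root_.sum_apply, _root_.smul_apply, hpow, map_sum, map_smul]

theorem pow_dg (i : ℕ) (t : ℂ) (v : ι → ℂ) :
    (S.Nq 0 ^ i) (dg S.m t v) = dg S.m t ((S.Nq 0 ^ i) v) := by
  induction i generalizing v with
  | zero => rfl
  | succ i ih =>
    rw [pow_succ]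
    change (S.Nq 0 ^ i) (S.Nq 0 (dg S.m t v)) = _
    rw [S.N0_dg, ih]
    rfl

theorem hasDerivAt_F (v : ι → ℂ) (z : ℂ) : HasDerivAt (S.F v) (S.A (S.F v z)) z := by
  rw [hasDerivAt_pi]
  intro j
  have h1 : HasDerivAt (fun z : ℂ => ex (S.Nq 0) (-z) v) (-(S.Nq 0 (ex (S.Nq 0) (-z) v))) z := by
    have h2 := (hasDerivAt_ex_apply (S.Nq 0) (-z) v).scomp z (hasDerivAt_neg z)
    refine HasDerivAt.congr_deriv (f := fun z : ℂ => ex (S.Nq 0) (-z) v) h2 ?_
    rw [neg_one_smul]
  have h3 := hasDerivAt_pi.1 h1 j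
  have h4 := (hasDerivAt_qpow z (S.m j)).mul h3
  have h5 : (fun z => S.F v z j) = fun z => qexp z ^ S.m j * ex (S.Nq 0) (-z) v j := by
    funext z
    rw [F, dg_ap]
  rw [h5]
  refine h4.congr_deriv ?_
  have h6 : S.Nq 0 (S.F v z) j = qexp z ^ S.m j * (S.Nq 0 (ex (S.Nq 0) (-z) v)) j := by
    rw [F, S.N0_dg, dg_ap]
  have h7 : S.A (S.F v z) j = (2 * Real.pi * Complex.I) * (S.m j * S.F v z j) -
      S.Nq 0 (S.F v z) j := by
    simp [A, wt_ap]
  rw [h7, h6, F, dg_ap, Pi.neg_apply]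
  ring

/-- the model functions -/
noncomputable def f (v : ι → ℂ) (z : ℂ) : L → ℂ := S.b 0 (S.F v z)

theorem iteratedDeriv_f (v : ι → ℂ) (i : ℕ) :
    iteratedDeriv i (S.f v) = fun z => S.c i (S.F v z) := by
  induction i with
  | zero =>
    rw [iteratedDeriv_zero]
    rfl
  | succ i ih =>
    rw [iteratedDeriv_succ, ih]
    funext z
    have h := (S.c i).hasFDerivAt.comp_hasDerivAt z (S.hasDerivAt_F v z)
    refine h.deriv.trans ?_
    rw [c_eq, c_eq, pow_succ]
    rfl

theorem hasDerivAt_f (v : ι → ℂ) (z : ℂ) : HasDerivAt (S.f v) (S.c 1 (S.F v z)) z := by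
  have h := (S.b 0).hasFDerivAt.comp_hasDerivAt z (S.hasDerivAt_F v z)
  refine h.congr_deriv ?_
  rw [c_eq, pow_one]

theorem analyticAt_f (v : ι → ℂ) (z : ℂ) : AnalyticAt ℂ (S.f v) z := by
  have h : Differentiable ℂ (S.f v) := fun z => (S.hasDerivAt_f v z).differentiableAt
  exact h.analyticAt z

/-- the functions depend linearly on the vector -/
noncomputable def g : (ι → ℝ) →ₗ[ℝ] (ℂ → L → ℂ) where
  toFun x := S.f (cv x)
  map_add' x y := by
    funext z
    simp only [f, F, cv_add, map_add, Pi.add_apply]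
  map_smul' c x := by
    funext z
    ext l
    simp [f, F, cv_smul]

end CuspModel

omit [Fintype L] in
/-- a polynomial with vector coefficients and infinitely many zeros vanishes -/
theorem poly_zero {K : ℕ} (c : ℕ → L → ℂ) {s : Set ℂ} (hs : s.Infinite)
    (h : ∀ z ∈ s, ∑ i ∈ Finset.range K, z ^ i • c i = 0) : ∀ i < K, c i = 0 := by
  intro i hi
  ext l
  set p : Polynomial ℂ := ∑ i ∈ Finset.range K, Polynomial.C (c i l) * Polynomial.X ^ i with hp
  have h0 : p = 0 := by
    refine Polynomial.eq_zero_of_infinite_isRoot p (hs.mono fun z hz => ?_)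
    have h1 := congrFun (h z hz) l
    simp only [Set.mem_ofPred_eq, Polynomial.IsRoot.def, hp, Polynomial.eval_finsetSum,
      Polynomial.eval_mul, Polynomial.eval_C, Polynomial.eval_pow, Polynomial.eval_X]
    rw [Finset.sum_apply] at h1
    simp only [Pi.smul_apply, smul_eq_mul, Pi.zero_apply] at h1
    rw [← h1]
    exact Finset.sum_congr rfl fun i _ => mul_comm _ _
  have h2 : p.coeff i = c i l := by
    rw [hp, Polynomial.finsetSum_coeff]
    simp only [Polynomial.coeff_C_mul, Polynomial.coeff_X_pow]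
    rw [Finset.sum_eq_single i]
    · simp
    · intro b _ hb
      simp [Ne.symm hb]
    · intro h
      exact absurd (Finset.mem_range.2 hi) h
  rw [← h2, h0]
  simp

theorem qexp_add_nat (z : ℂ) (n : ℕ) : qexp (z + n) = qexp z := by
  induction n with
  | zero => simp
  | succ n ih =>
    have h := qq_add_one (z + n)
    change qexp (z + n + 1) = qexp (z + n) at h
    push_cast
    rw [← add_assoc, h, ih]

theorem exists_qexp {t : ℂ} (ht : t ≠ 0) : ∃ z : ℂ, qexp z = t := by
  refine ⟨Complex.log t / (2 * Real.pi * Complex.I), ?_⟩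
  have h : (2 * Real.pi * Complex.I : ℂ) ≠ 0 := Complex.two_pi_I_ne_zero
  rw [qexp, mul_div_cancel₀ _ h, Complex.exp_log ht]

/-- the functions `f x` are not zero -/
theorem model_ne (S : CuspModel ι L)
    (hb : ∀ (a : ℕ) (x : ι → ℝ), (∀ j, x j ≠ 0 → S.m j = a) →
      (∀ i : ℕ, S.b 0 ((S.Nq 0 ^ i) (cv x)) = 0) → x = 0)
    (x : ι → ℝ) (h : ∀ z, S.f (cv x) z = 0) : x = 0 := by
  -- the coefficients of the powers of `z`
  have h1 : ∀ t : ℂ, t ≠ 0 → ∀ i, S.b 0 (dg S.m t ((S.Nq 0 ^ i) (cv x))) = 0 := by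
    intro t ht
    obtain ⟨z, rfl⟩ := exists_qexp ht
    set c : ℕ → L → ℂ := fun i => ((i ! : ℂ)⁻¹ * (-1) ^ i) •
      S.b 0 (dg S.m (qexp z) ((S.Nq 0 ^ i) (cv x))) with hc
    have h2 := poly_zero (K := S.K) c (s := Set.range fun n : ℕ => z + n)
      (Set.infinite_range_of_injective fun a b hab => by simpa using hab) (by
        rintro _ ⟨n, rfl⟩
        have h3 := h (z + n)
        rw [CuspModel.f, CuspModel.F, qexp_add_nat, ex_eq_sum (S.Nq_nilp 0)] at h3
        simp only [_root_.sum_apply, _root_.smul_apply, map_sum, map_smul] at h3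
        rw [← h3]
        refine Finset.sum_congr rfl fun i _ => ?_
        simp only [hc]
        rw [smul_smul, neg_pow (z + n) i]
        congr 1
        ring)
    intro i
    rcases lt_or_ge i S.K with hi | hi
    · have h3 := h2 i hi
      simp only [hc] at h3
      rcases smul_eq_zero.1 h3 with h4 | h4
      · exfalso
        have h5 : (i ! : ℂ) ≠ 0 := by exact_mod_cast Nat.factorial_ne_zero i
        have h6 : ((i ! : ℂ)⁻¹ * (-1) ^ i) ≠ 0 :=
          mul_ne_zero (inv_ne_zero h5) (pow_ne_zero _ (by norm_num))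
        exact h6 h4
      · exact h4
    · rw [pow_eq_zero_of_le hi (S.Nq_nilp 0)]
      simp
  -- the coefficients of the powers of `t`
  set part : ℕ → ι → ℝ := fun a j => if S.m j = a then x j else 0 with hpart
  have hsum : ∀ t : ℂ, dg S.m t (cv x) =
      ∑ a ∈ Finset.range (Finset.univ.sup S.m + 1), t ^ a • cv (part a) := by
    intro t
    ext j
    rw [dg_ap, Finset.sum_apply, Finset.sum_eq_single (S.m j)]
    · simp [cv, hpart]
    · intro a _ ha
      simp [cv, hpart, Ne.symm ha]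
    · intro hj
      exact absurd (Finset.mem_range.2 (Nat.lt_succ_of_le (Finset.le_sup (Finset.mem_univ j)))) hj
  have h2 : ∀ i a, S.b 0 ((S.Nq 0 ^ i) (cv (part a))) = 0 := by
    intro i a
    rcases lt_or_ge a (Finset.univ.sup S.m + 1) with ha | ha
    · refine poly_zero (K := Finset.univ.sup S.m + 1)
        (fun a => S.b 0 ((S.Nq 0 ^ i) (cv (part a)))) (s := {0}ᶜ)
        (Set.Finite.infinite_compl (Set.finite_singleton 0)) ?_ a ha
      intro t ht
      have h3 := h1 t ht i
      rw [← S.pow_dg, hsum] at h3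
      simp only [map_sum, map_smul] at h3
      exact h3
    · have h4 : part a = 0 := by
        funext j
        have h5 : S.m j ≤ Finset.univ.sup S.m := Finset.le_sup (Finset.mem_univ j)
        simp only [hpart, Pi.zero_apply, ite_eq_right_iff]
        intro h6
        omega
      rw [h4, cv_zero]
      simp
  have h3 : ∀ a, part a = 0 := by
    intro a
    refine hb a (part a) (fun j hj => ?_) (fun i => h2 i a)
    by_contra hne
    apply hj
    simp [hpart, hne]
  funext j
  have h4 := congrFun (h3 (S.m j)) j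
  simpa [hpart] using h4

/-- real vectors -/
theorem ex_real (S : CuspModel ι L) (t : ℝ) (x : ι → ℝ) :
    ∃ y : ι → ℝ, ex (S.Nq 0) t (cv x) = cv y := by
  have hreal : ∀ v : ι → ℂ,
      IsRe (fun j : ι => (ContinuousLinearMap.proj j : (ι → ℂ) →L[ℂ] ℂ)) v ↔
        ∃ y : ι → ℝ, v = cv y := by
    intro v
    constructor
    · intro hv
      refine ⟨fun j => (v j).re, ?_⟩
      ext j
      have h1 : (v j).im = 0 := hv j
      apply Complex.ext
      · simp [cv]
      · simp [cv, h1]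
    · rintro ⟨y, rfl⟩ j
      simp [cv]
  have hop : RealOp (fun j : ι => (ContinuousLinearMap.proj j : (ι → ℂ) →L[ℂ] ℂ)) (S.Nq 0) := by
    intro v hv
    obtain ⟨y, rfl⟩ := (hreal v).1 hv
    exact (hreal _).2 (S.N0_real y)
  exact (hreal _).1 (ex_re hop (S.Nq_nilp 0) t ((hreal _).2 ⟨x, rfl⟩))

/-- a solution of the model equations gives a zero of high order of one of the functions -/
theorem model_zero (S : CuspModel ι L) {r : ℕ} {y : ℝ} (h : S.Sol r y) :
    ∃ z : ℂ, z.im = y ∧ 0 ≤ z.re ∧ z.re ≤ 1 ∧ ∃ x : ι → ℝ, x ≠ 0 ∧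
      (r : ℕ∞) ≤ analyticOrderAt (S.g x) z := by
  obtain ⟨θ, hθ, η, hη, hs⟩ := h
  -- the argument of `θ`
  obtain ⟨x₀, hx0, hx1, hθx⟩ : ∃ x₀ : ℝ, 0 ≤ x₀ ∧ x₀ ≤ 1 ∧ θ = qexp x₀ := by
    have hpi := Real.pi_pos
    have hθ0 : θ ≠ 0 := by
      intro h0
      rw [h0, norm_zero] at hθ
      exact one_ne_zero hθ.symm
    have h1 : θ = Complex.exp (θ.arg * Complex.I) := by
      have := Complex.norm_mul_exp_arg_mul_I θ
      rw [hθ] at this
      simpa using this.symm
    rcases le_or_gt 0 θ.arg with h2 | h2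
    · refine ⟨θ.arg / (2 * Real.pi), by positivity, ?_, ?_⟩
      · rw [div_le_one (by positivity)]
        linarith [Complex.arg_le_pi θ]
      · rw [qexp]
        conv_lhs => rw [h1]
        congr 1
        push_cast
        field_simp
    · refine ⟨θ.arg / (2 * Real.pi) + 1, ?_, ?_, ?_⟩
      · have h3 : -1 ≤ θ.arg / (2 * Real.pi) := by
          rw [le_div_iff₀ (by positivity)]
          linarith [Complex.neg_pi_lt_arg θ]
        linarith
      · have h3 : θ.arg / (2 * Real.pi) ≤ 0 := by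
          rw [div_le_iff₀ (by positivity)]
          linarith
        linarith
      · have h4 := qq_add_one ((θ.arg / (2 * Real.pi) : ℝ) : ℂ)
        change qexp _ = qexp _ at h4
        push_cast at h4 ⊢
        rw [h4, qexp]
        conv_lhs => rw [h1]
        congr 1
        field_simp
  set t : ℝ := Real.exp (-(2 * Real.pi * y)) with ht
  have htpos : 0 < t := Real.exp_pos _
  have hq : qexp (x₀ + y * Complex.I) = θ * t := by
    rw [hθx, qexp, qexp, ht, Complex.ofReal_exp, ← Complex.exp_add]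
    congr 1
    push_cast
    ring_nf
    rw [Complex.I_sq]
    ring
  -- the real vector
  obtain ⟨x, hx⟩ : ∃ x : ι → ℝ, ex (S.Nq 0) x₀ (cv fun j => (t⁻¹) ^ S.m j * η j) = cv x :=
    ex_real S x₀ _
  have hdg : (cv fun j => (t⁻¹) ^ S.m j * η j) = dg S.m ((t : ℂ)⁻¹) (cv η) := by
    ext j
    rw [dg_ap]
    simp [cv]
  have hF : S.F (cv x) (x₀ + y * Complex.I) =
      ex (S.Nq 0) (-(y * Complex.I)) (dg S.m θ (cv η)) := by
    have h1 : ex (S.Nq 0) (-(x₀ + y * Complex.I)) (cv x) =
        ex (S.Nq 0) (-(y * Complex.I)) (dg S.m ((t : ℂ)⁻¹) (cv η)) := by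
      rw [← hx, hdg, neg_add, add_comm, ex_add]
      change ex (S.Nq 0) (-(y * Complex.I)) (ex (S.Nq 0) (-x₀) (ex (S.Nq 0) x₀ _)) = _
      rw [ex_neg_apply]
    rw [CuspModel.F, h1, ← S.ex_dg, ← dg_mul_ap, hq, mul_assoc,
      mul_inv_cancel₀ (by exact_mod_cast htpos.ne'), mul_one]
  refine ⟨x₀ + y * Complex.I, by simp, by simpa using hx0, by simpa using hx1, x, ?_, ?_⟩
  · rintro rfl
    apply hη
    have h1 : dg S.m ((t : ℂ)⁻¹) (cv η) = 0 := by
      have h2 := congrArg (ex (S.Nq 0) (-x₀)) hx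
      rw [ex_neg_apply, cv_zero, map_zero, hdg] at h2
      exact h2
    funext j
    have h3 := congrFun h1 j
    rw [dg_ap] at h3
    have h4 : ((t : ℂ)⁻¹) ^ S.m j ≠ 0 :=
      pow_ne_zero _ (inv_ne_zero (by exact_mod_cast htpos.ne'))
    have h5 : cv η j = 0 := by
      rcases mul_eq_zero.1 h3 with h6 | h6
      · exact absurd h6 h4
      · exact h6
    simpa [cv] using h5
  · refine (natCast_le_analyticOrderAt_iff_iteratedDeriv_eq_zero (S.analyticAt_f _ _)).2 ?_
    intro i hi
    rw [S.iteratedDeriv_f]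
    simp only
    rw [hF]
    exact hs i hi

theorem model : ModelStatement := by
  classical
  intro ι L _ _ _ S r deep M₀ H c hr hb hdeep hcard hH ⟨Y, hY⟩
  set Y' : ℝ := max Y c + 1 with hY'
  have hYY : Y < Y' := by
    have := le_max_left Y c
    linarith
  have hcY : c < Y' := by
    have := le_max_right Y c
    linarith
  -- the zeros
  set T : Set ℂ := {z | Y' ≤ z.im ∧ z.im ≤ Y' + 1 ∧ 0 ≤ z.re ∧ z.re ≤ 1 ∧ ∃ x : ι → ℝ, x ≠ 0 ∧
      (r : ℕ∞) ≤ analyticOrderAt (S.g x) z} with hT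
  have hTinf : T.Infinite := by
    have h1 : Set.Icc Y' (Y' + 1) ⊆ Complex.im '' T := by
      rintro y ⟨h1, h2⟩
      obtain ⟨z, hz, hz0, hz1, hx⟩ := model_zero S (hY y (by linarith))
      exact ⟨z, ⟨by rw [hz]; exact h1, by rw [hz]; exact h2, hz0, hz1, hx⟩, hz⟩
    exact Set.Infinite.of_image _ ((Set.Icc_infinite (by linarith)).mono h1)
  have hTK : T ⊆ Set.Icc (0 : ℝ) 1 ×ℂ Set.Icc Y' (Y' + 1) := fun z hz =>
    ⟨⟨hz.2.2.1, hz.2.2.2.1⟩, ⟨hz.1, hz.2.1⟩⟩
  obtain ⟨z₀, hz₀, hacc⟩ := hTinf.exists_accPt_of_subset_isCompact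
    (isCompact_Icc.reProdIm isCompact_Icc) hTK
  have hz₀c : c < z₀.im := lt_of_lt_of_le hcY hz₀.2.1
  -- the projection to the coordinates of order zero
  let P : (ι → ℝ) →ₗ[ℝ] (ι → ℝ) :=
    { toFun := fun x j => if S.m j = 0 then x j else 0
      map_add' := fun x y => by
        funext j
        by_cases h : S.m j = 0 <;> simp [h]
      map_smul' := fun a x => by
        funext j
        by_cases h : S.m j = 0 <;> simp [h] }
  have hP : ∀ x, cv (P x) = dg S.m 0 (cv x) := by
    intro x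
    ext j
    rw [dg_ap]
    by_cases h : S.m j = 0
    · simp [P, cv, h]
    · simp [P, cv, h]
  have hPH : ∀ x ∈ H, P x = 0 → x = 0 := by
    intro x hx hPx
    refine hH z₀ hz₀c x hx (fun l _ => ?_)
    rw [← hP, hPx, cv_zero]
    simp
  have hz := zero_estimate deep r hr S.g (u₀ := z₀) (fun w => S.analyticAt_f _ _)
    (fun _ => M₀) (fun l l' => analyticAt_const) (fun w => Eventually.of_forall fun u l hl => by
      have h1 := hasDerivAt_pi.1 (S.hasDerivAt_f (cv w) u) l
      refine h1.deriv.trans ?_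
      exact hdeep _ l hl)
    (H.map P) (by
      rw [Module.finrank_fintype_fun_eq_card]
      have h1 : Module.finrank ℝ (H.map P) = Module.finrank ℝ H := by
        have h2 : Function.Injective (P.domRestrict H) := by
          rw [← LinearMap.ker_eq_bot, LinearMap.ker_eq_bot']
          intro w hw
          exact Subtype.ext (hPH w w.2 hw)
        rw [← LinearMap.range_domRestrict]
        exact LinearMap.finrank_range_of_inj h2
      rw [h1]
      exact hcard)
    (by
      rintro _ ⟨x, hx, rfl⟩ hl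
      have h1 : x = 0 := by
        refine hH z₀ hz₀c x hx (fun l hdl => ?_)
        have h2 := hl l hdl
        change S.b 0 (dg S.m (qexp z₀) (ex (S.Nq 0) (-z₀) (cv (P x)))) l = 0 at h2
        rw [hP, S.ex_dg, ← dg_mul_ap, mul_zero, ← S.ex_dg] at h2
        exact h2
      rw [h1, map_zero])
    (by
      intro w hw
      refine model_ne S hb w (fun z => ?_)
      have h1 : AnalyticOnNhd ℂ (S.f (cv w)) Set.univ := fun z _ => S.analyticAt_f _ _
      have h2 := h1.eqOn_zero_of_preconnected_of_eventuallyEq_zero isPreconnected_univ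
        (Set.mem_univ z₀) hw
      exact h2 (Set.mem_univ z))
  rw [accPt_iff_frequently_nhdsNE] at hacc
  obtain ⟨z, hzT, hz'⟩ := (hacc.and_eventually hz).exists
  obtain ⟨x, hx0, hx⟩ := hzT.2.2.2.2
  exact hx0 (hz' x hx)

end Pool.Agent.T2H44.RC
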