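import Pool.Agent.T2H44.RC.Stm
import Pool.Agent.H581R2.QE

/-!
# Package Q: an application of the elimination of quantifiers
-/

set_option autoImplicit false

namespace Pool.Agent.T2H44.RC.PQ

open Polynomial Filter Topology Pool.Agent.H581R2

/-! ## several quantifiers -/

lemma SAP_exists_fun (F : Type) [Finite F] : ∀ (Q : Type) (p : (F ⊕ Q → ℝ) → Prop), SAP p →
    SAP (fun v : Q → ℝ => ∃ u : F → ℝ, p (Sum.elim u v)) := by
  refine Finite.induction_empty_option (P := fun F : Type => ∀ (Q : Type) (p : (F ⊕ Q → ℝ) → Prop),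
    SAP p → SAP (fun v : Q → ℝ => ∃ u : F → ℝ, p (Sum.elim u v))) ?_ ?_ ?_ F
  · intro α β e ih Q p hp
    have h1 : SAP (fun w : α ⊕ Q → ℝ => p (fun x : β ⊕ Q => w (Sum.map e.symm id x))) :=
      hp.preimage (φ := fun (w : α ⊕ Q → ℝ) (x : β ⊕ Q) => w (Sum.map e.symm id x))
        (fun k => PF.coord _)
    refine SAP.congr (ih Q _ h1) fun v => ?_
    constructor
    · rintro ⟨u, hu⟩
      refine ⟨fun a => u (e a), ?_⟩
      convert hu using 1
      funext x
      cases x with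
      | inl b => simp
      | inr q => simp
    · rintro ⟨u, hu⟩
      refine ⟨fun b => u (e.symm b), ?_⟩
      convert hu using 1
      funext x
      cases x with
      | inl b => simp
      | inr q => simp
  · intro Q p hp
    have h1 : SAP (fun v : Q → ℝ => p (Sum.elim PEmpty.elim v)) :=
      hp.preimage (φ := fun (v : Q → ℝ) => (Sum.elim PEmpty.elim v : PEmpty ⊕ Q → ℝ)) (by
        intro k
        cases k with
        | inl x => exact x.elim
        | inr q => exact PF.coord q)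
    refine SAP.congr h1 fun v => ?_
    constructor
    · rintro ⟨u, hu⟩
      have : u = PEmpty.elim := funext fun x => x.elim
      rwa [this] at hu
    · intro h
      exact ⟨PEmpty.elim, h⟩
  · intro α _ ih Q p hp
    set g : Option α ⊕ Q → Option (α ⊕ Q) := fun x => match x with
      | Sum.inl none => none
      | Sum.inl (some a) => some (Sum.inl a)
      | Sum.inr q => some (Sum.inr q) with hg
    have h1 : SAP (fun w : Option (α ⊕ Q) → ℝ => p (fun x => w (g x))) :=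
      hp.preimage (φ := fun (w : Option (α ⊕ Q) → ℝ) x => w (g x)) (fun k => PF.coord _)
    have h2 := SAP.exists_real h1
    refine SAP.congr (ih Q _ h2) fun v => ?_
    have key : ∀ (t : ℝ) (u : α → ℝ), (fun x => ext t (Sum.elim u v) (g x)) =
        Sum.elim (fun o : Option α => o.elim t u) v := by
      intro t u
      funext x
      rcases x with (_ | a) | q <;> rfl
    constructor
    · rintro ⟨u, hu⟩
      refine ⟨fun a => u (some a), u none, ?_⟩
      rw [key]
      convert hu using 2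
      funext o
      cases o <;> rfl
    · rintro ⟨u, t, hu⟩
      rw [key] at hu
      exact ⟨_, hu⟩

/-! ## complex valued polynomial functions -/

/-- complex valued polynomial functions -/
def PC {ι : Type} (f : (ι → ℝ) → ℂ) : Prop := PF (fun v => (f v).re) ∧ PF (fun v => (f v).im)

lemma PC.add {ι : Type} {f g : (ι → ℝ) → ℂ} (hf : PC f) (hg : PC g) : PC fun v => f v + g v := by
  refine ⟨?_, ?_⟩
  · simpa using hf.1.add hg.1
  · simpa using hf.2.add hg.2

lemma PC.mul {ι : Type} {f g : (ι → ℝ) → ℂ} (hf : PC f) (hg : PC g) : PC fun v => f v * g v := by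
  refine ⟨?_, ?_⟩
  · simpa using (hf.1.mul hg.1).sub (hf.2.mul hg.2)
  · simpa using (hf.1.mul hg.2).add (hf.2.mul hg.1)

lemma PC.real {ι : Type} {f : (ι → ℝ) → ℝ} (hf : PF f) : PC fun v => (f v : ℂ) :=
  ⟨by simpa using hf, by simpa using PF.zero⟩

lemma PC.I {ι : Type} : PC fun _ : ι → ℝ => Complex.I :=
  ⟨by simpa using PF.zero, by simpa using PF.one⟩

lemma PC.pow {ι : Type} {f : (ι → ℝ) → ℂ} (hf : PC f) (n : ℕ) : PC fun v => f v ^ n := by
  induction n with
  | zero =>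
    simp only [pow_zero]
    exact ⟨by simpa using PF.one, by simpa using PF.zero⟩
  | succ n ih =>
    simp only [pow_succ]
    exact ih.mul hf

lemma PC.sum {ι α : Type} [Fintype α] {f : α → (ι → ℝ) → ℂ} (hf : ∀ a, PC (f a)) :
    PC fun v => ∑ a, f a v := by
  refine ⟨?_, ?_⟩
  · simpa using PF.sum Finset.univ fun a _ => (hf a).1
  · simpa using PF.sum Finset.univ fun a _ => (hf a).2

lemma PC.normSq {ι : Type} {f : (ι → ℝ) → ℂ} (hf : PC f) : PF fun v => ‖f v‖ ^ 2 := by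
  have := (hf.1.mul hf.1).add (hf.2.mul hf.2)
  have e1 : (fun v => ‖f v‖ ^ 2) = fun v => (f v).re * (f v).re + (f v).im * (f v).im := by
    funext v
    rw [Complex.sq_norm, Complex.normSq_apply]
  rw [e1]
  exact this

/-! ## signs of polynomials in two variables near `(∞, 0)` -/

lemma poly_bound (G : ℝ[X]) : ∃ (C : ℝ) (M : ℕ), 0 ≤ C ∧ ∀ y : ℝ, 1 ≤ y → |G.eval y| ≤ C * y ^ M := by
  refine ⟨∑ i ∈ Finset.range (G.natDegree + 1), |G.coeff i|, G.natDegree,
    Finset.sum_nonneg fun _ _ => abs_nonneg _, fun y hy => ?_⟩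
  rw [Polynomial.eval_eq_sum_range, Finset.sum_mul]
  refine (Finset.abs_sum_le_sum_abs _ _).trans (Finset.sum_le_sum fun i hi => ?_)
  rw [abs_mul, abs_pow, abs_of_nonneg (by linarith : (0 : ℝ) ≤ y)]
  refine mul_le_mul_of_nonneg_left ?_ (abs_nonneg _)
  refine pow_le_pow_right₀ hy ?_
  have := Finset.mem_range.1 hi
  omega

lemma two_bound (N : ℕ) : ∀ G : ℕ → ℝ[X], ∃ (C : ℝ) (M : ℕ), 0 ≤ C ∧ ∀ y δ : ℝ, 1 ≤ y → 0 < δ →
    δ ≤ 1 → |∑ b ∈ Finset.range N, (G b).eval y * δ ^ b| ≤ C * y ^ M := by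
  induction N with
  | zero =>
    intro G
    exact ⟨0, 0, le_rfl, fun y δ _ _ _ => by simp⟩
  | succ N ih =>
    intro G
    obtain ⟨C, M, hC, h⟩ := ih G
    obtain ⟨C', M', hC', h'⟩ := poly_bound (G N)
    refine ⟨C + C', max M M', by positivity, fun y δ hy hδ hδ1 => ?_⟩
    rw [Finset.sum_range_succ]
    refine (abs_add_le _ _).trans ?_
    have h1 := h y δ hy hδ hδ1
    have h2 : |(G N).eval y * δ ^ N| ≤ C' * y ^ M' := by
      rw [abs_mul, abs_pow, abs_of_pos hδ]
      have h3 := h' y hy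
      have h4 : δ ^ N ≤ 1 := pow_le_one₀ hδ.le hδ1
      calc |(G N).eval y| * δ ^ N ≤ |(G N).eval y| * 1 :=
            mul_le_mul_of_nonneg_left h4 (abs_nonneg _)
        _ = |(G N).eval y| := mul_one _
        _ ≤ _ := h3
    have h5 : y ^ M ≤ y ^ max M M' := pow_le_pow_right₀ hy (le_max_left _ _)
    have h6 : y ^ M' ≤ y ^ max M M' := pow_le_pow_right₀ hy (le_max_right _ _)
    calc |∑ b ∈ Finset.range N, (G b).eval y * δ ^ b| + |(G N).eval y * δ ^ N| ≤
        C * y ^ M + C' * y ^ M' := add_le_add h1 h2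
      _ ≤ C * y ^ max M M' + C' * y ^ max M M' :=
          add_le_add (mul_le_mul_of_nonneg_left h5 hC) (mul_le_mul_of_nonneg_left h6 hC')
      _ = _ := by ring

/-- a nonzero polynomial is at least `y^(-1/2)` for large `y` -/
lemma poly_lower {G : ℝ[X]} (hG : G ≠ 0) : ∀ᶠ y in atTop, 1 < y * G.eval y ^ 2 := by
  have h1 : X * G ^ 2 ≠ 0 := mul_ne_zero X_ne_zero (pow_ne_zero 2 hG)
  have hd : 0 < (X * G ^ 2).degree := by
    rw [Polynomial.degree_mul, Polynomial.degree_X]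
    have : 0 ≤ (G ^ 2).degree := Polynomial.zero_le_degree_iff.2 (pow_ne_zero 2 hG)
    calc (0 : WithBot ℕ) < 1 := by norm_num
      _ = 1 + 0 := (add_zero _).symm
      _ ≤ 1 + (G ^ 2).degree := by gcongr
  have hl : 0 ≤ (X * G ^ 2).leadingCoeff := by
    rw [Polynomial.leadingCoeff_mul, Polynomial.leadingCoeff_X, Polynomial.leadingCoeff_pow, one_mul]
    positivity
  have h2 := Polynomial.tendsto_atTop_of_leadingCoeff_nonneg _ hd hl
  filter_upwards [h2.eventually_gt_atTop 1] with y hy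
  simpa using hy

lemma sign_add_small {a b : ℝ} (h : |b| < |a|) : SignType.sign (a + b) = SignType.sign a := by
  rcases lt_trichotomy a 0 with ha | ha | ha
  · rw [abs_of_neg ha] at h
    have := le_abs_self b
    rw [sign_neg ha, sign_neg (by linarith)]
  · rw [ha, abs_zero] at h
    exact absurd h (not_lt.2 (abs_nonneg b))
  · rw [abs_of_pos ha] at h
    have := neg_abs_le b
    rw [sign_pos ha, sign_pos (by linarith)]

lemma two_sign (N : ℕ) : ∀ G : ℕ → ℝ[X], ∃ (s : SignType) (K : ℕ) (Y : ℝ), ∀ y δ : ℝ, Y < y →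
    0 < δ → δ * y ^ K < 1 → SignType.sign (∑ b ∈ Finset.range N, (G b).eval y * δ ^ b) = s := by
  induction N with
  | zero =>
    intro G
    exact ⟨0, 0, 0, fun y δ _ _ _ => by simp⟩
  | succ N ih =>
    intro G
    have hsplit : ∀ y δ : ℝ, ∑ b ∈ Finset.range (N + 1), (G b).eval y * δ ^ b =
        (G 0).eval y + δ * ∑ b ∈ Finset.range N, (G (b + 1)).eval y * δ ^ b := by
      intro y δ
      rw [Finset.sum_range_succ', Finset.mul_sum, add_comm]
      congr 1
      · simp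
      · refine Finset.sum_congr rfl fun b _ => ?_
        ring
    by_cases hG : G 0 = 0
    · obtain ⟨s, K, Y, h⟩ := ih fun b => G (b + 1)
      refine ⟨s, K, Y, fun y δ hy hδ hδK => ?_⟩
      rw [hsplit, hG, Polynomial.eval_zero, zero_add, sign_mul, sign_pos hδ, one_mul]
      exact h y δ hy hδ hδK
    · obtain ⟨C, M, hC, h⟩ := two_bound N fun b => G (b + 1)
      have h1 := eventually_sign_atTop (G 0) hG
      have h2 := poly_lower hG
      obtain ⟨Y, hY⟩ := eventually_atTop.1 (h1.and h2)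
      refine ⟨SignType.sign (G 0).leadingCoeff, M + 1, max (max Y 1) (C ^ 2),
        fun y δ hy hδ hδK => ?_⟩
      have hyY : Y ≤ y := ((le_max_left _ _).trans (le_max_left _ _)).trans hy.le
      have hy1 : 1 ≤ y := ((le_max_right _ _).trans (le_max_left _ _)).trans hy.le
      have hyC : C ^ 2 < y := (le_max_right _ _).trans_lt hy
      have hy0 : 0 < y := by linarith
      obtain ⟨h3, h4⟩ := hY y hyY
      rw [hsplit, ← h3]
      apply sign_add_small
      have hδ1 : δ ≤ 1 := by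
        have : 1 ≤ y ^ (M + 1) := one_le_pow₀ hy1
        nlinarith
      have h5 := h y δ hy1 hδ hδ1
      set T := ∑ b ∈ Finset.range N, (G (b + 1)).eval y * δ ^ b with hT
      rw [abs_mul, abs_of_pos hδ]
      -- `δ |T| ≤ C / y`
      have h6 : δ * |T| * y ≤ C := by
        calc δ * |T| * y ≤ δ * (C * y ^ M) * y := by gcongr
          _ = C * (δ * y ^ (M + 1)) := by ring
          _ ≤ C * 1 := mul_le_mul_of_nonneg_left hδK.le hC
          _ = C := mul_one C
      have h7 : (δ * |T|) ^ 2 * y < 1 := by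
        have h8 : (δ * |T| * y) ^ 2 ≤ C ^ 2 := pow_le_pow_left₀ (by positivity) h6 2
        have h9 : (δ * |T|) ^ 2 * y * y < 1 * y := by nlinarith
        exact lt_of_mul_lt_mul_right h9 hy0.le
      have h10 : (δ * |T|) ^ 2 < |(G 0).eval y| ^ 2 := by
        rw [sq_abs]
        have : (δ * |T|) ^ 2 * y < (G 0).eval y ^ 2 * y := by linarith
        exact lt_of_mul_lt_mul_right this hy0.le
      exact lt_of_pow_lt_pow_left₀ 2 (abs_nonneg _) h10

/-- the membership of `(y, δ)` in a semialgebraic set is eventually constant for `δ < y^(-K)` -/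
lemma two_const {C : Type} {p : (Option (Option C) → ℝ) → Prop} (hp : SAP p) (c : C → ℝ) :
    ∃ (K : ℕ) (Y : ℝ), 1 ≤ Y ∧ ∀ y δ y' δ' : ℝ, Y < y → 0 < δ → δ * y ^ K < 1 → Y < y' → 0 < δ' →
      δ' * y' ^ K < 1 → p (ext δ (ext y c)) → p (ext δ' (ext y' c)) := by
  classical
  obtain ⟨Q, hQ⟩ := hp
  have h1 : ∀ q : MvPolynomial (Option (Option C)) ℚ, ∃ (s : SignType) (K : ℕ) (Y : ℝ),
      ∀ y δ : ℝ, Y < y → 0 < δ → δ * y ^ K < 1 →
      SignType.sign (MvPolynomial.aeval (ext δ (ext y c)) q) = s := by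
    intro q
    obtain ⟨F, hF⟩ := exists_univ q
    have h2 : ∀ b, ∃ H : UP C, ∀ (y : ℝ), MvPolynomial.aeval (ext y c) (F.coeff b) =
        (spec c H).eval y := by
      intro b
      obtain ⟨H, hH⟩ := exists_univ (F.coeff b)
      exact ⟨H, fun y => hH c y⟩
    choose H hH using h2
    obtain ⟨s, K, Y, h⟩ := two_sign (F.natDegree + 1) fun b => spec c (H b)
    refine ⟨s, K, Y, fun y δ hy hδ hδK => ?_⟩
    rw [hF, spec_eval, ← h y δ hy hδ hδK]
    congr 1
    refine Finset.sum_congr rfl fun b _ => ?_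
    rw [hH]
  choose s K Y h using h1
  refine ⟨Q.sup K, max 1 (∑ q ∈ Q, |Y q|), le_max_left _ _, ?_⟩
  intro y δ y' δ' hy hδ hδK hy' hδ' hδK' hpy
  have key : ∀ (y δ : ℝ), max 1 (∑ q ∈ Q, |Y q|) < y → 0 < δ → δ * y ^ Q.sup K < 1 → ∀ q ∈ Q,
      SignType.sign (MvPolynomial.aeval (ext δ (ext y c)) q) = s q := by
    intro y δ hy hδ hδK q hq
    have hy1 : 1 ≤ y := (le_max_left _ _).trans hy.le
    refine h q y δ ?_ hδ ?_
    · have h3 : |Y q| ≤ ∑ q ∈ Q, |Y q| :=
        Finset.single_le_sum (f := fun q => |Y q|) (fun _ _ => abs_nonneg _) hq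
      have h4 := le_abs_self (Y q)
      have h5 := le_max_right 1 (∑ q ∈ Q, |Y q|)
      linarith
    · refine lt_of_le_of_lt ?_ hδK
      refine mul_le_mul_of_nonneg_left ?_ hδ.le
      exact pow_le_pow_right₀ hy1 (Finset.le_sup (f := K) hq)
  refine hQ _ _ (fun q hq => ?_) hpy
  rw [key y δ hy hδ hδK q hq, key y' δ' hy' hδ' hδK' q hq]

/-! ## the predicate -/

section

variable {ι E : Type} [Fintype ι] [Fintype E]

/-- the type of the coefficients -/
abbrev Cf (ι E : Type) (D : ℕ) : Type := E × ι × Fin D × Bool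

/-- the equation number `e` -/
noncomputable def Phi (m : ι → ℕ) (D : ℕ) (e : E)
    (w : (Bool ⊕ ι) ⊕ Option (Option (Cf ι E D)) → ℝ) : ℂ :=
  ∑ j, (w (Sum.inl (Sum.inr j)) : ℂ) *
    (((w (Sum.inl (Sum.inl false)) : ℂ) + (w (Sum.inl (Sum.inl true)) : ℂ) * Complex.I) ^ (m j) *
    ∑ k : Fin D, ((w (Sum.inr (some (some (e, j, k, false)))) : ℂ) +
      (w (Sum.inr (some (some (e, j, k, true)))) : ℂ) * Complex.I) *
      (w (Sum.inr (some none)) : ℂ) ^ (k : ℕ))

omit [Fintype E] in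
lemma Phi_PC (m : ι → ℕ) (D : ℕ) (e : E) : PC (Phi (ι := ι) (E := E) m D e) := by
  refine PC.sum fun j => ?_
  refine (PC.real (PF.coord _)).mul ?_
  refine (((PC.real (PF.coord _)).add ((PC.real (PF.coord _)).mul PC.I)).pow _).mul ?_
  refine PC.sum fun k => ?_
  refine ((PC.real (PF.coord _)).add ((PC.real (PF.coord _)).mul PC.I)).mul ?_
  exact (PC.real (PF.coord _)).pow _

/-- the predicate -/
def Bp (m : ι → ℕ) (D : ℕ) (w : (Bool ⊕ ι) ⊕ Option (Option (Cf ι E D)) → ℝ) : Prop :=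
  (w (Sum.inl (Sum.inl false)) ^ 2 + w (Sum.inl (Sum.inl true)) ^ 2 = 1) ∧
  (∑ j, w (Sum.inl (Sum.inr j)) ^ 2 = 1) ∧ ∀ e : E, ‖Phi m D e w‖ ^ 2 ≤ w (Sum.inr none)

lemma Bp_SAP (m : ι → ℕ) (D : ℕ) : SAP (Bp (ι := ι) (E := E) m D) := by
  unfold Bp
  refine SAP.and ?_ (SAP.and ?_ ?_)
  · exact SAP.eq (((PF.coord _).pow 2).add ((PF.coord _).pow 2)) PF.one
  · exact SAP.eq (PF.sum Finset.univ fun j _ => (PF.coord _).pow 2) PF.one
  · refine SAP.congr (SAP.forall_mem (Finset.univ : Finset E)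
      (p := fun e w => ‖Phi m D e w‖ ^ 2 ≤ w (Sum.inr none)) fun e _ => ?_) (by simp)
    exact SAP.le (Phi_PC m D e).normSq (PF.coord _)

end

end Pool.Agent.T2H44.RC.PQ

namespace Pool.Agent.T2H44.RC

open Polynomial Filter Topology Pool.Agent.H581R2 PQ

theorem qe : QEStatement := by
  classical
  intro ι E _ _ m p hyp
  -- a bound for the degrees
  set D : ℕ := (∑ e, ∑ j, (p e j).natDegree) + 1 with hD
  have hdeg : ∀ e j, (p e j).natDegree < D := by
    intro e j
    have h1 : (p e j).natDegree ≤ ∑ j, (p e j).natDegree :=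
      Finset.single_le_sum (f := fun j => (p e j).natDegree) (fun _ _ => Nat.zero_le _)
        (Finset.mem_univ j)
    have h2 : ∑ j, (p e j).natDegree ≤ ∑ e, ∑ j, (p e j).natDegree :=
      Finset.single_le_sum (f := fun e => ∑ j, (p e j).natDegree) (fun _ _ => Nat.zero_le _)
        (Finset.mem_univ e)
    omega
  -- the coefficients
  set c : Cf ι E D → ℝ := fun x => match x with
    | (e, j, k, false) => ((p e j).coeff k).re
    | (e, j, k, true) => ((p e j).coeff k).im with hc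
  have hPhi : ∀ (e : E) (u : Bool ⊕ ι → ℝ) (δ y : ℝ), Phi m D e (Sum.elim u (ext δ (ext y c))) =
      ∑ j, (u (Sum.inr j) : ℂ) * ((u (Sum.inl false) : ℂ) + (u (Sum.inl true) : ℂ) * Complex.I) ^ (m j) *
        (p e j).eval (y : ℂ) := by
    intro e u δ y
    unfold Phi
    refine Finset.sum_congr rfl fun j _ => ?_
    rw [mul_assoc]
    congr 2
    rw [Polynomial.eval_eq_sum_range' (hdeg e j), Finset.sum_range]
    refine Finset.sum_congr rfl fun k _ => ?_
    show (((((p e j).coeff k).re : ℝ) : ℂ) + ((((p e j).coeff k).im : ℝ) : ℂ) * Complex.I) *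
      (y : ℂ) ^ (k : ℕ) = _
    rw [Complex.re_add_im]
  -- the semialgebraic set
  have hSAP := SAP_exists_fun (Bool ⊕ ι) (Option (Option (Cf ι E D))) _
    (Bp_SAP (ι := ι) (E := E) m D)
  obtain ⟨K, Y0, hY0, hconst⟩ := two_const hSAP c
  have hA : ∀ δ y : ℝ, (∃ u : Bool ⊕ ι → ℝ, Bp m D (Sum.elim u (ext δ (ext y c)))) ↔
      ∃ θ : ℂ, ‖θ‖ = 1 ∧ ∃ η : ι → ℝ, ∑ j, η j ^ 2 = 1 ∧
      ∀ e, ‖∑ j, (η j : ℂ) * θ ^ (m j) * (p e j).eval (y : ℂ)‖ ^ 2 ≤ δ := by
    intro δ y
    constructor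
    · rintro ⟨u, h1, h2, h3⟩
      refine ⟨(u (Sum.inl false) : ℂ) + (u (Sum.inl true) : ℂ) * Complex.I, ?_,
        fun j => u (Sum.inr j), h2, fun e => ?_⟩
      · have h4 : ‖(u (Sum.inl false) : ℂ) + (u (Sum.inl true) : ℂ) * Complex.I‖ ^ 2 = 1 := by
          rw [Complex.sq_norm, Complex.normSq_add_mul_I]
          exact h1
        exact (pow_eq_one_iff_of_nonneg (norm_nonneg _) two_ne_zero).1 h4
      · have h4 := h3 e
        rw [hPhi] at h4
        exact h4
    · rintro ⟨θ, h1, η, h2, h3⟩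
      refine ⟨Sum.elim (fun b => if b then θ.im else θ.re) η, ?_, ?_, fun e => ?_⟩
      · show θ.re ^ 2 + θ.im ^ 2 = 1
        have h4 : ‖θ‖ ^ 2 = 1 := by rw [h1, one_pow]
        rw [Complex.sq_norm, Complex.normSq_apply] at h4
        nlinarith
      · exact h2
      · rw [hPhi]
        have h4 := h3 e
        have h5 : ((θ.re : ℂ) + (θ.im : ℂ) * Complex.I) = θ := Complex.re_add_im θ
        simp only [Sum.elim_inl, Sum.elim_inr, Bool.false_eq_true, if_false, if_true, h5]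
        exact h4
  -- one good point
  obtain ⟨Y1, hY1⟩ : ∃ Y1 : ℝ, ∀ y, Y1 < y → Real.exp (-y) * y ^ K < 1 := by
    have h1 := Real.tendsto_pow_mul_exp_neg_atTop_nhds_zero K
    have h2 := h1.eventually_lt_const one_pos
    obtain ⟨Y1, h3⟩ := eventually_atTop.1 h2
    exact ⟨Y1, fun y hy => by rw [mul_comm]; exact h3 y hy.le⟩
  obtain ⟨y0, hy0, θ0, hθ0, η0, hη0, he0⟩ := hyp (max Y0 Y1)
  have hy00 : Y0 < y0 := (le_max_left _ _).trans_lt hy0
  have hy01 : Y1 < y0 := (le_max_right _ _).trans_lt hy0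
  have hbase : ∃ u : Bool ⊕ ι → ℝ, Bp m D (Sum.elim u (ext (Real.exp (-y0)) (ext y0 c))) := by
    rw [hA]
    refine ⟨θ0, hθ0, η0, hη0, fun e => ?_⟩
    have h1 := he0 e
    have h2 : Real.exp (-y0) ≤ 1 := by
      rw [Real.exp_le_one_iff]
      linarith
    have h3 := Real.exp_pos (-y0)
    nlinarith [norm_nonneg (∑ j, (η0 j : ℂ) * θ0 ^ (m j) * (p e j).eval (y0 : ℂ))]
  refine ⟨Y0, fun y hy => ?_⟩
  have hy1 : 0 < y := by linarith
  -- solutions with arbitrarily small errors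
  have happ : ∀ δ : ℝ, 0 < δ → δ * y ^ K < 1 → ∃ θ : ℂ, ‖θ‖ = 1 ∧ ∃ η : ι → ℝ, ∑ j, η j ^ 2 = 1 ∧
      ∀ e, ‖∑ j, (η j : ℂ) * θ ^ (m j) * (p e j).eval (y : ℂ)‖ ^ 2 ≤ δ := by
    intro δ hδ hδK
    rw [← hA]
    exact hconst y0 (Real.exp (-y0)) y δ hy00 (Real.exp_pos _) (hY1 y0 hy01) hy hδ hδK hbase
  -- compactness
  set S : Set (ℂ × (ι → ℝ)) := {x | ‖x.1‖ = 1 ∧ ∑ j, x.2 j ^ 2 = 1} with hS
  set g : ℂ × (ι → ℝ) → ℝ := fun x =>
    ∑ e, ‖∑ j, (x.2 j : ℂ) * x.1 ^ (m j) * (p e j).eval (y : ℂ)‖ ^ 2 with hg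
  have hgc : Continuous g := by
    rw [hg]
    fun_prop
  have hSc : IsCompact S := by
    have hcl : IsClosed S := by
      have h1 : IsClosed {x : ℂ × (ι → ℝ) | ‖x.1‖ = 1} := isClosed_eq (by fun_prop) (by fun_prop)
      have h2 : IsClosed {x : ℂ × (ι → ℝ) | ∑ j, x.2 j ^ 2 = 1} :=
        isClosed_eq (by fun_prop) (by fun_prop)
      exact h1.inter h2
    refine Metric.isCompact_of_isClosed_isBounded hcl ?_
    refine (Metric.isBounded_closedBall (x := (0 : ℂ × (ι → ℝ))) (r := 1)).subset fun x hx => ?_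
    rw [mem_closedBall_zero_iff, Prod.norm_def]
    refine max_le hx.1.le ?_
    rw [pi_norm_le_iff_of_nonneg zero_le_one]
    intro j
    have h1 : x.2 j ^ 2 ≤ 1 := by
      rw [← hx.2]
      exact Finset.single_le_sum (f := fun j => x.2 j ^ 2) (fun _ _ => sq_nonneg _)
        (Finset.mem_univ j)
    rw [Real.norm_eq_abs]
    exact (sq_le_one_iff_abs_le_one _).1 h1
  have hSne : S.Nonempty := by
    refine ⟨(θ0, η0), hθ0, hη0⟩
  obtain ⟨x, hx, hmin⟩ := hSc.exists_isMinOn hSne hgc.continuousOn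
  have hg0 : g x ≤ 0 := by
    by_contra hcon
    push Not at hcon
    set n : ℝ := (Fintype.card E : ℝ) + 1 with hn
    have hn0 : 0 < n := by positivity
    set δ : ℝ := min (g x / (2 * n)) (1 / (2 * y ^ K)) with hδ
    have hyK : 0 < y ^ K := by positivity
    have hδ0 : 0 < δ := lt_min (by positivity) (by positivity)
    have hδK : δ * y ^ K < 1 := by
      calc δ * y ^ K ≤ 1 / (2 * y ^ K) * y ^ K :=
            mul_le_mul_of_nonneg_right (min_le_right _ _) hyK.le
        _ = 1 / 2 := by field_simp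
        _ < 1 := by norm_num
    obtain ⟨θ, h1, η, h2, h3⟩ := happ δ hδ0 hδK
    have h4 : g x ≤ g (θ, η) := hmin (show (θ, η) ∈ S from ⟨h1, h2⟩)
    have h5 : g (θ, η) ≤ ∑ _e : E, δ := Finset.sum_le_sum fun e _ => h3 e
    rw [Finset.sum_const, Finset.card_univ, nsmul_eq_mul] at h5
    have h6 : (Fintype.card E : ℝ) * δ ≤ n * (g x / (2 * n)) := by
      refine mul_le_mul (by rw [hn]; linarith) (min_le_left _ _) hδ0.le hn0.le
    have h7 : n * (g x / (2 * n)) = g x / 2 := by field_simp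
    linarith
  refine ⟨x.1, hx.1, x.2, hx.2, fun e => ?_⟩
  have h1 : ‖∑ j, (x.2 j : ℂ) * x.1 ^ (m j) * (p e j).eval (y : ℂ)‖ ^ 2 ≤ g x :=
    Finset.single_le_sum (f := fun e => ‖∑ j, (x.2 j : ℂ) * x.1 ^ (m j) *
      (p e j).eval (y : ℂ)‖ ^ 2) (fun _ _ => by positivity) (Finset.mem_univ e)
  have h2 : ‖∑ j, (x.2 j : ℂ) * x.1 ^ (m j) * (p e j).eval (y : ℂ)‖ ^ 2 = 0 :=
    le_antisymm (h1.trans hg0) (by positivity)
  exact norm_eq_zero.1 (pow_eq_zero_iff two_ne_zero |>.1 h2)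

end Pool.Agent.T2H44.RC
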