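import Pool.Agent.T2H44.RC.Defs

/-!
# Statements of two packages: elimination of quantifiers, and the passage from local to global
-/

namespace Pool.Agent.T2H44.RC

open Metric Pool.Agent.Y92.Gap

/-- package Q: if a system of equations `∑_j η_j θ^(m_j) p_{ej}(y) = 0`, `p_{ej}` polynomials, has
solutions `η` (real, of norm `1`), `|θ| = 1`, up to an error `exp (-y)`, for arbitrarily large `y`, then it
has exact solutions for all large `y`. -/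
def QEStatement : Prop :=
  ∀ (ι E : Type) [Fintype ι] [Fintype E] (m : ι → ℕ) (p : E → ι → Polynomial ℂ),
    (∀ Y : ℝ, ∃ y : ℝ, Y < y ∧ ∃ θ : ℂ, ‖θ‖ = 1 ∧ ∃ η : ι → ℝ, ∑ j, η j ^ 2 = 1 ∧
      ∀ e, ‖∑ j, (η j : ℂ) * θ ^ (m j) * (p e j).eval (y : ℂ)‖ ≤ Real.exp (-y)) →
    ∃ Y : ℝ, ∀ y : ℝ, Y < y → ∃ θ : ℂ, ‖θ‖ = 1 ∧ ∃ η : ι → ℝ, ∑ j, η j ^ 2 = 1 ∧
      ∀ e, ∑ j, (η j : ℂ) * θ ^ (m j) * (p e j).eval (y : ℂ) = 0

/-- package G: local constancy of the space of Hodge classes (outside of the centres of the charts) gives the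
theorem. -/
def GlobalStatement : Prop :=
  ∀ (n r : ℕ) (lev : Fin n → ℤ) (X : Type) [TopologicalSpace X] [ChartedSpace ℂ X]
    [IsManifold (modelWithCornersSelf ℂ ℂ) 1 X] [CompactSpace X] [ConnectedSpace X] [T2Space X]
    (D : Set X) (V : Variation n r lev X D) (K : Subfield ℝ),
    (∀ p ∉ D, ∃ ε > 0, ε ≤ (V.disc p).rad ∧ ∃ B : Set (Fin n → ℝ), ∀ u : ℂ, u ≠ 0 → ‖u‖ < ε →
      ∀ w, rv w ∈ (V.disc p).F u 0 ↔ w ∈ B) →
    (∀ p ∈ D, ∃ (y₁ : ℝ) (B : Set (Fin n → ℝ)), ∀ z : ℂ, y₁ < z.im →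
      qexp z ∈ ball (0 : ℂ) (V.cusp p).rad → ∀ w, rv w ∈ (V.cusp p).F z 0 ↔ w ∈ B) →
    ∃ d : ℕ, {x | x ∉ D ∧ ∃ W F, HasPeriod D V.disc V.cusp x W F ∧
      Module.finrank K (classes K F) ≠ d}.Finite

end Pool.Agent.T2H44.RC
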